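import Pool.Agent.H24.Lib.R_seed8.H137R2.PFR.Bsg
import Pool.Agent.H24.Lib.R_seed8.TH404.Tor.Tau
set_option autoImplicit false

/-! Entropic Balog-Szemeredi-Gowers in a general finite abelian group, combined with minimality. -/

open scoped Classical

namespace Pool.Agent.TH404.Tor

open H137.PFR hiding dist
open H137.PFR.BSG

variable {Ω γ : Type*} [Fintype Ω] [Fintype γ]
variable {V : Type*} [AddCommGroup V] [Fintype V]

theorem bsg_min {η : ℝ} {μ₀ : V → ℝ} (h0 : Law μ₀) {t : ℝ} (hη : 0 ≤ η)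
    (ht : ∀ μ ν : V → ℝ, Law μ → Law ν → t ≤ tauE η μ₀ μ ν)
    {w : Ω → ℝ} (hw : Law w) (X Y : Ω → V) (S : Ω → γ) :
    t ≤ (2 * H w (fun ω => (X ω, S ω)) + 2 * H w (fun ω => (Y ω, S ω))
          + H w (fun ω => (X ω + Y ω, S ω))
        - 2 * H w (fun ω => (X ω, Y ω, S ω)) - 3 * H w S)
      - (H w (fun ω => (X ω, Y ω, S ω)) - H w (fun ω => (X ω + Y ω, S ω)))
      + η * (2 * ((E0 μ₀ w X S - H w S) - ent μ₀ / 2 - (H w (fun ω => (X ω, Y ω, S ω))
            - H w (fun ω => (X ω + Y ω, S ω))) / 2)) := by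
  set C : Ω → V × γ := fun ω => (X ω + Y ω, S ω) with hC
  have hw' := law_ww hw C
  have hCC : ∀ q : Pr C, X q.1.1 + Y q.1.1 = X q.1.2 + Y q.1.2 ∧ S q.1.1 = S q.1.2 :=
    fun q => Prod.mk.inj q.2
  have hmain := minimalityE h0 ht hw' (fun q => X q.1.1) (fun q => X q.1.2) (fun q => C q.1.1)
    (CI_ww hw.1 C X X)
  -- marginals
  have m1 : H (ww w C) (fun q => C q.1.1) = H w C := by
    unfold H; rw [push_fst hw.1 C C]
  have m2 : H (ww w C) (fun q => (X q.1.1, C q.1.1)) = H w (fun ω => (X ω, C ω)) := by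
    unfold H; rw [push_fst hw.1 C (fun ω => (X ω, C ω))]
  have m3 : H (ww w C) (fun q => (X q.1.2, C q.1.1)) = H w (fun ω => (X ω, C ω)) := by
    have : (fun q : Pr C => (X q.1.2, C q.1.1)) = fun q => (X q.1.2, C q.1.2) :=
      funext fun q => by rw [q.2]
    unfold H; rw [this, push_snd hw.1 C (fun ω => (X ω, C ω))]
  have hE : ∀ (U : Ω → V) (π : Pr C → Ω) (hπ : ∀ {δ : Type _} (f : Ω → δ),
      push (ww w C) (fun q => f (π q)) = push w f),
      push (prod μ₀ (ww w C)) (fun p : V × Pr C => (p.1 + U (π p.2), C (π p.2))) =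
      push (prod μ₀ w) (fun p : V × Ω => (p.1 + U p.2, C p.2)) := by
    intro U π hπ
    funext a
    have e : ∀ {Θ : Type _} [Fintype Θ] (u : Θ → ℝ) (F : V → Θ → V × (V × γ)),
        push (prod μ₀ u) (fun p : V × Θ => F p.1 p.2) a = ∑ v, μ₀ v * push u (F v) a := by
      intro Θ _ u F
      unfold push prod
      rw [Fintype.sum_prod_type]
      refine Finset.sum_congr rfl fun v _ => ?_
      rw [Finset.mul_sum]
      refine Finset.sum_congr rfl fun o _ => ?_
      split_ifs <;> simp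
    rw [e (ww w C) (fun v q => (v + U (π q), C (π q))), e w (fun v o => (v + U o, C o))]
    refine Finset.sum_congr rfl fun v _ => ?_
    rw [hπ (fun o => (v + U o, C o))]
  have m4 : E0 μ₀ (ww w C) (fun q => X q.1.1) (fun q => C q.1.1) = E0 μ₀ w X C := by
    unfold E0 H
    rw [hE X (fun q => q.1.1) (fun f => push_fst hw.1 C f)]
  have m5 : E0 μ₀ (ww w C) (fun q => X q.1.2) (fun q => C q.1.1) = E0 μ₀ w X C := by
    have : (fun q : Pr C => C q.1.1) = fun q => C q.1.2 := funext fun q => q.2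
    rw [this]
    unfold E0 H
    rw [hE X (fun q => q.1.2) (fun f => push_snd hw.1 C f)]
  rw [m1, m2, m3, m4, m5] at hmain
  -- entropies of `(X, Y, S)`
  have hXC : H w (fun ω => (X ω, C ω)) = H w (fun ω => (X ω, Y ω, S ω)) := by
    refine H_eq hw (fun a => (a.1, a.2.1 - a.1, a.2.2)) (fun a => (a.1, a.1 + a.2.1, a.2.2))
      (fun ω => ?_) (fun ω => ?_)
    · simp only [hC, Prod.mk.injEq, true_and, and_true]
      abel
    · simp only [hC]
  -- the main entropy bound
  have hD : H (ww w C) (fun q => (X q.1.1 + X q.1.2, C q.1.1)) - H w C ≤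
      2 * H w (fun ω => (X ω, S ω)) + 2 * H w (fun ω => (Y ω, S ω)) + H w C
        - 2 * H w (fun ω => (X ω, Y ω, S ω)) - 3 * H w S := by
    have s0 : H (ww w C) (fun q => (X q.1.1 + X q.1.2, C q.1.1)) =
        H (ww w C) (fun q => (X q.1.1 - Y q.1.2, C q.1.1)) := by
      refine H_eq hw' (fun a => (a.1 - a.2.1, a.2)) (fun a => (a.1 + a.2.1, a.2))
          (fun q => ?_) (fun q => ?_)
      · have h3 := (hCC q).1
        simp only [hC, Prod.mk.injEq, and_true]
        rw [h3]; abel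
      · have h3 := (hCC q).1
        simp only [hC, Prod.mk.injEq, and_true]
        rw [h3]; abel
    have s1 := H_submod hw' (fun q : Pr C => X q.1.1 - Y q.1.2) (fun q => X q.1.1 + Y q.1.1)
      (fun q => S q.1.1)
    have s2 : H (ww w C) (fun q => S q.1.1) = H w S := by
      unfold H; rw [push_fst hw.1 C S]
    have s3 : H (ww w C) (fun q => (X q.1.1 + Y q.1.1, S q.1.1)) = H w C := m1
    have s4 : H (ww w C) (fun q => (X q.1.1 - Y q.1.2, X q.1.1 + Y q.1.1, S q.1.1)) =
        H (ww w C) (fun q => (X q.1.1 - Y q.1.2, C q.1.1)) := rfl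
    rw [s2, s3, s4] at s1
    have s5 := H_submod hw' (fun q : Pr C => X q.1.1) (fun q => Y q.1.1)
      (fun q => (X q.1.1 - Y q.1.2, S q.1.1))
    -- the four-variable entropy
    have s6 : H (ww w C) (fun q => (X q.1.1, Y q.1.1, X q.1.1 - Y q.1.2, S q.1.1)) =
        H (ww w C) (fun q => (X q.1.1, X q.1.2, C q.1.1)) := by
      refine H_eq hw'
        (fun a => (a.1, a.2.1 + a.2.2.1, a.1 + a.2.1, a.2.2.2))
        (fun a => (a.1, a.2.2.1 - a.1, a.1 + a.2.1 - a.2.2.1, a.2.2.2))
        (fun q => ?_) (fun q => ?_)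
      · have h3 := (hCC q).1
        simp only [hC, Prod.mk.injEq, true_and, and_true]
        rw [show Y q.1.1 + (X q.1.1 - Y q.1.2) = (X q.1.1 + Y q.1.1) - Y q.1.2 by abel, h3]
        abel
      · have h3 := (hCC q).1
        simp only [hC, Prod.mk.injEq, true_and, and_true]
        constructor
        · abel
        · rw [h3]; abel
    have s7 := H_CI hw' (CI_ww hw.1 C X X)
    rw [m1, m2, m3, hXC] at s7
    rw [s6] at s5
    -- the two three-variable entropies
    have s9 : H (ww w C) (fun q => (X q.1.1, X q.1.1 - Y q.1.2, S q.1.1)) ≤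
        H w (fun ω => (X ω, S ω)) + H w (fun ω => (Y ω, S ω)) - H w S := by
      have t1 : H (ww w C) (fun q => (X q.1.1, X q.1.1 - Y q.1.2, S q.1.1)) =
          H (ww w C) (fun q => (X q.1.1, Y q.1.2, S q.1.1)) := by
        refine H_eq hw' (fun a => (a.1, a.1 - a.2.1, a.2.2)) (fun a => (a.1, a.1 - a.2.1, a.2.2))
          (fun q => ?_) (fun q => ?_)
        · simp only [Prod.mk.injEq, true_and, and_true]
          abel
        · rfl
      have t2 := H_submod hw' (fun q : Pr C => X q.1.1) (fun q => Y q.1.2) (fun q => S q.1.1)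
      have t3 : H (ww w C) (fun q => (X q.1.1, S q.1.1)) = H w (fun ω => (X ω, S ω)) := by
        unfold H; rw [push_fst hw.1 C (fun ω => (X ω, S ω))]
      have t4 : H (ww w C) (fun q => (Y q.1.2, S q.1.1)) = H w (fun ω => (Y ω, S ω)) := by
        have : (fun q : Pr C => (Y q.1.2, S q.1.1)) = fun q => (Y q.1.2, S q.1.2) :=
          funext fun q => by rw [(hCC q).2]
        unfold H; rw [this, push_snd hw.1 C (fun ω => (Y ω, S ω))]
      rw [s2, t3, t4] at t2
      rw [t1]
      linarith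
    have s10 : H (ww w C) (fun q => (Y q.1.1, X q.1.1 - Y q.1.2, S q.1.1)) ≤
        H w (fun ω => (X ω, S ω)) + H w (fun ω => (Y ω, S ω)) - H w S := by
      have t1 : H (ww w C) (fun q => (Y q.1.1, X q.1.1 - Y q.1.2, S q.1.1)) =
          H (ww w C) (fun q => (Y q.1.1, X q.1.2, S q.1.1)) := by
        refine H_eq hw' (fun a => (a.1, a.1 + a.2.1, a.2.2)) (fun a => (a.1, a.2.1 - a.1, a.2.2))
          (fun q => ?_) (fun q => ?_)
        · have h3 := (hCC q).1
          simp only [Prod.mk.injEq, true_and, and_true]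
          rw [show Y q.1.1 + (X q.1.1 - Y q.1.2) = (X q.1.1 + Y q.1.1) - Y q.1.2 by abel, h3]
          abel
        · have h3 := (hCC q).1
          simp only [Prod.mk.injEq, true_and, and_true]
          rw [show X q.1.1 - Y q.1.2 = (X q.1.1 + Y q.1.1) - Y q.1.1 - Y q.1.2 by abel, h3]
          abel
      have t2 := H_submod hw' (fun q : Pr C => Y q.1.1) (fun q => X q.1.2) (fun q => S q.1.1)
      have t3 : H (ww w C) (fun q => (Y q.1.1, S q.1.1)) = H w (fun ω => (Y ω, S ω)) := by
        unfold H; rw [push_fst hw.1 C (fun ω => (Y ω, S ω))]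
      have t4 : H (ww w C) (fun q => (X q.1.2, S q.1.1)) = H w (fun ω => (X ω, S ω)) := by
        have : (fun q : Pr C => (X q.1.2, S q.1.1)) = fun q => (X q.1.2, S q.1.2) :=
          funext fun q => by rw [(hCC q).2]
        unfold H; rw [this, push_snd hw.1 C (fun ω => (X ω, S ω))]
      rw [s2, t3, t4] at t2
      rw [t1]
      linarith
    rw [s0]
    linarith
  have e1 : E0 μ₀ w X C - H w C ≤ E0 μ₀ w X S - H w S := E0_mono h0 hw X _ S
  rw [hXC] at hmain
  have hCd : H w (fun ω => (X ω + Y ω, S ω)) = H w C := rfl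
  rw [hCd]
  have e2 := mul_le_mul_of_nonneg_left e1 hη
  nlinarith [hmain, hD, e2]

end Pool.Agent.TH404.Tor
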