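import Pool.Agent.H24.Lib.R_seed8.TH404.Tor.Lin
set_option autoImplicit false

/-! The family of cells `(μ, λ, b)` and the flips. -/

open scoped Classical

namespace Pool.Agent.TH404.Tor

open H137.PFR hiding dist

/-- index set of half cells -/
abbrev Idx (m : ℕ) : Type := (ZMod m × ZMod m × (Fin 8 → Bool)) × Bool

variable {V : Type*} [AddCommGroup V] [Fintype V] {m : ℕ}

/-- laws of the half cells -/
noncomputable def pp (m : ℕ) (p₁ p₂ : V → ℝ) : Idx m → V → ℝ := fun i => if i.2 then p₂ else p₁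

/-- coefficient of `A` -/
def cA : Idx m → ZMod m := fun i => i.1.1

/-- coefficient of `W` -/
def cW : Idx m → ZMod m := fun i => i.1.2.1

/-- coefficient of `B r` -/
def cB (r : Fin 8) : Idx m → ZMod m := fun i => if i.1.2.2 r then i.1.2.1 else 0

/-- coefficient of `U R` -/
def cU (R : Finset (Fin 8)) : Idx m → ZMod m := ∑ r ∈ R, cB r

theorem cU_apply (R : Finset (Fin 8)) (i : Idx m) : cU R i = ∑ r ∈ R, cB r i := by
  unfold cU
  rw [Finset.sum_apply]

/-- the flip function -/
def flipF (m : ℕ) (r : Fin 8) (i : Idx m) : Idx m :=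
  ((i.1.1, i.1.2.1, Function.update i.1.2.2 r (!(i.1.2.2 r))), !i.2)

theorem flipF_invol (r : Fin 8) : Function.Involutive (flipF m r) := by
  intro i
  unfold flipF
  obtain ⟨⟨a, b, c⟩, d⟩ := i
  simp

/-- the flip -/
def flip (m : ℕ) (r : Fin 8) : Idx m ≃ Idx m := (flipF_invol r).toPerm _

theorem flip_apply (r : Fin 8) (i : Idx m) :
    flip m r i = ((i.1.1, i.1.2.1, Function.update i.1.2.2 r (!(i.1.2.2 r))), !i.2) := rfl

theorem cA_flip (r : Fin 8) (i : Idx m) : cA (flip m r i) = cA i := rfl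

theorem cW_flip (r : Fin 8) (i : Idx m) : cW (flip m r i) = cW i := rfl

theorem cB_flip {r r' : Fin 8} (h : r' ≠ r) (i : Idx m) : cB r' (flip m r i) = cB r' i := by
  unfold cB
  rw [flip_apply]
  simp [Function.update_of_ne h]

theorem cU_flip {r : Fin 8} {R : Finset (Fin 8)} (h : r ∉ R) (i : Idx m) :
    cU R (flip m r i) = cU R i := by
  rw [cU_apply, cU_apply]
  refine Finset.sum_congr rfl fun r' hr' => cB_flip ?_ i
  intro hc
  exact h (hc ▸ hr')

section

variable [NeZero m]

/-- half of the cells -/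
def Jr (m : ℕ) [NeZero m] (r : Fin 8) : Finset (Idx m) :=
  Finset.univ.filter (fun i => i.1.2.2 r = true)

theorem mem_Jr (r : Fin 8) (i : Idx m) : i ∈ Jr m r ↔ i.1.2.2 r = true := by
  simp [Jr]

theorem flip_mem_Jr (r : Fin 8) (i : Idx m) : flip m r i ∈ Jr m r ↔ i ∉ Jr m r := by
  rw [mem_Jr, mem_Jr, flip_apply]
  simp

variable [Module (ZMod m) V]

variable (V) in
/-- the homomorphisms -/
def ph (m : ℕ) [Module (ZMod m) V] (i : Idx m) : V →+ V := DistribSMul.toAddMonoidHom V (cW i)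

omit [NeZero m] [Fintype V] in
theorem ph_apply (i : Idx m) (v : V) : ph V m i v = cW i • v := rfl

variable {η : ℝ} {μ₀ p₁ p₂ : V → ℝ}

theorem flip_data (r : Fin 8) : Flip p₁ p₂ (pp m p₁ p₂) (ph V m) (flip m r) (Jr m r)
    ((0, 1, fun _ => true), false) where
  hJ i hi := by
    rw [flip_mem_Jr]
    exact not_not.2 hi
  hp i _ := by
    unfold pp
    rw [flip_apply]
    obtain ⟨⟨a, b, c⟩, d⟩ := i
    cases d
    · left; simp
    · right; simp
  h0 := by rw [mem_Jr]
  hφ := by
    ext v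
    simp [ph_apply, cW]

theorem Zf_eq (r : Fin 8) : (Zf (ph V m) (Jr m r)) = L (cB r) := by
  funext x
  unfold Zf L Jr
  rw [Finset.sum_filter]
  refine Finset.sum_congr rfl fun i _ => ?_
  rw [ph_apply]
  unfold cB cW
  split_ifs <;> simp

theorem Zs_eq (r : Fin 8) : (Zs (ph V m) (flip m r) (Jr m r)) =
    L (fun i => if i.1.2.2 r then 0 else i.1.2.1) := by
  funext x
  unfold Zs L
  rw [← Equiv.sum_comp (flip m r) (fun i : Idx m => (if i.1.2.2 r then 0 else i.1.2.1) • x i)]
  unfold Jr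
  rw [Finset.sum_filter]
  refine Finset.sum_congr rfl fun i _ => ?_
  rw [ph_apply]
  have h1 : (flip m r i).1.2.2 r = !(i.1.2.2 r) := by rw [flip_apply]; simp
  have h2 : (flip m r i).1.2.1 = cW i := rfl
  rw [h1, h2]
  cases i.1.2.2 r <;> simp

theorem W_eq (r : Fin 8) (x : Idx m → V) :
    L cW x = Zf (ph V m) (Jr m r) x + Zs (ph V m) (flip m r) (Jr m r) x := by
  rw [Zf_eq, Zs_eq, ← L_add]
  congr 1
  funext i
  rw [Pi.add_apply]
  unfold cB cW
  split_ifs <;> simp

/-- invariant forms are functions of the pair sums -/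
theorem L_inv (r : Fin 8) (c : Idx m → ZMod m) (hc : ∀ i, c (flip m r i) = c i)
    (x : Idx m → V) : L c x = ∑ i ∈ Jr m r, c i • Sp (flip m r) (Jr m r) x i := by
  unfold L
  rw [← Finset.sum_add_sum_compl (Jr m r)]
  have h1 : ∑ i ∈ (Jr m r)ᶜ, c i • x i = ∑ i ∈ Jr m r, c i • x (flip m r i) := by
    symm
    refine Finset.sum_bij (fun i _ => flip m r i) ?_ ?_ ?_ ?_
    · intro i hi
      rw [Finset.mem_compl, flip_mem_Jr]
      exact not_not.2 hi
    · intro i _ j _ hij
      exact (flip m r).injective hij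
    · intro i hi
      refine ⟨flip m r i, ?_, flipF_invol r i⟩
      rw [flip_mem_Jr]
      exact Finset.mem_compl.1 hi
    · intro i _
      rw [hc]
  rw [h1, ← Finset.sum_add_distrib]
  refine Finset.sum_congr rfl fun i hi => ?_
  unfold Sp
  rw [if_pos hi, smul_add]

end

end Pool.Agent.TH404.Tor
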