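import Pool.Agent.H24.Lib.R_seed8.TH404.Tor.Cube
set_option autoImplicit false

/-! The contradiction: a minimiser has zero doubling. -/

open scoped Classical

namespace Pool.Agent.TH404.Tor

open H137.PFR hiding dist

variable {V : Type*} [AddCommGroup V] [Fintype V] {m : ℕ} [NeZero m] [Module (ZMod m) V]

variable {η : ℝ} {μ₀ p₁ p₂ : V → ℝ}

omit [AddCommGroup V] [NeZero m] [Module (ZMod m) V] in
theorem law_pp (h1 : Law p₁) (h2 : Law p₂) (i : Idx m) : Law (pp m p₁ p₂ i) := by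
  unfold pp
  split_ifs
  · exact h2
  · exact h1

/-- the tuple of the `B r`, `r ∈ R` -/
def BT (R : Finset (Fin 8)) (x : Idx m → V) : Fin 8 → V := fun r => if r ∈ R then L (cB r) x else 0

theorem L_cU (R : Finset (Fin 8)) (x : Idx m → V) : L (cU R) x = ∑ r ∈ R, L (cB r) x := by
  unfold L
  rw [Finset.sum_comm]
  refine Finset.sum_congr rfl fun i _ => ?_
  rw [cU_apply, Finset.sum_smul]

theorem cmi_const {Ω α β γ : Type*} [Fintype Ω] [Fintype α] [Fintype β] [Fintype γ] {w : Ω → ℝ}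
    (hw : Law w) (Y : Ω → α) (c : β) (W : Ω → γ) : cmi w Y (fun _ => c) W = 0 := by
  unfold cmi
  have e1 : H w (fun ω => (c, W ω)) = H w W :=
    H_eq hw (fun q => q.2) (fun q => (c, q)) (fun _ => rfl) (fun _ => rfl)
  have e2 : H w (fun ω => (Y ω, c, W ω)) = H w (fun ω => (Y ω, W ω)) :=
    H_eq hw (fun q => (q.1, q.2.2)) (fun q => (q.1, c, q.2)) (fun _ => rfl) (fun _ => rfl)
  rw [e1, e2]
  ring

/-- near independence of one `B r` -/
theorem cmi_one (h : Mn η μ₀ p₁ p₂) {Bd : ℝ}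
    (hBd : ∀ c : Idx m → ZMod m, H (pl (pp m p₁ p₂)) (L c : (Idx m → V) → V) ≤
      (ent p₁ + ent p₂) / 2 + Bd)
    (r : Fin 8) (R : Finset (Fin 8)) (hr : r ∉ R) (cY : Idx m → ZMod m)
    (hY : ∀ i, cY (flip m r i) = cY i) :
    cmi (pl (pp m p₁ p₂)) (fun x : Idx m → V => (L cY x, BT R x)) (L (cB r)) (L cW) ≤
      2 * η * Bd := by
  have hp : ∀ i, Law (pp m p₁ p₂ i) := law_pp h.l1 h.l2
  have F := flip_data (V := V) (m := m) (p₁ := p₁) (p₂ := p₂) r
  have h1 := near_ind h hp F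
    (fun q : Idx m → V => ((∑ i ∈ Jr m r, cY i • q i,
      fun r' => if r' ∈ R then ∑ i ∈ Jr m r, cB r' i • q i else 0) : V × (Fin 8 → V)))
    (L cW) (W_eq r)
  have h2 : ∀ x : Idx m → V, ((∑ i ∈ Jr m r, cY i • Sp (flip m r) (Jr m r) x i,
      fun r' => if r' ∈ R then ∑ i ∈ Jr m r, cB r' i • Sp (flip m r) (Jr m r) x i else 0) :
        V × (Fin 8 → V)) = (L cY x, BT R x) := by
    intro x
    rw [← L_inv r cY hY x]
    simp only [Prod.mk.injEq, true_and]
    funext r'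
    unfold BT
    split_ifs with h3
    · rw [← L_inv r (cB r') (fun i => cB_flip (fun hc : r' = r => hr (hc ▸ h3)) i) x]
    · rfl
  simp only [h2] at h1
  have h3 : H (pl (pp m p₁ p₂)) (Zf (ph V m) (Jr m r)) ≤ (ent p₁ + ent p₂) / 2 + Bd := by
    rw [Zf_eq]
    exact hBd _
  have h4 : H (pl (pp m p₁ p₂)) (Zs (ph V m) (flip m r) (Jr m r)) ≤
      (ent p₁ + ent p₂) / 2 + Bd := by
    rw [Zs_eq]
    exact hBd _
  have h5 : η * (H (pl (pp m p₁ p₂)) (Zf (ph V m) (Jr m r)) +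
      H (pl (pp m p₁ p₂)) (Zs (ph V m) (flip m r) (Jr m r)) - ent p₁ - ent p₂) ≤
      η * (2 * Bd) := by
    apply mul_le_mul_of_nonneg_left _ h.pos
    linarith
  unfold cmi
  rw [Zf_eq] at h1 h5
  linarith

/-- near independence of the tuple -/
theorem cmi_BT (h : Mn η μ₀ p₁ p₂) {Bd : ℝ}
    (hBd : ∀ c : Idx m → ZMod m, H (pl (pp m p₁ p₂)) (L c : (Idx m → V) → V) ≤
      (ent p₁ + ent p₂) / 2 + Bd)
    (cY : Idx m → ZMod m) (R : Finset (Fin 8))
    (hY : ∀ r ∈ R, ∀ i, cY (flip m r i) = cY i) :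
    cmi (pl (pp m p₁ p₂)) (L cY : (Idx m → V) → V) (BT R) (L cW) ≤ R.card * (2 * η * Bd) := by
  have hw : Law (pl (pp m p₁ p₂)) := law_pl (law_pp h.l1 h.l2)
  induction R using Finset.induction_on with
  | empty =>
    have e1 : (BT ∅ : (Idx m → V) → Fin 8 → V) = fun _ => (fun _ => 0) := by
      funext x r
      simp [BT]
    rw [e1, cmi_const hw]
    simp
  | insert r R hr ih =>
    have h1 := ih (fun r' hr' => hY r' (Finset.mem_insert_of_mem hr'))
    have h2 := cmi_one h hBd r R hr cY (hY r (Finset.mem_insert_self r R))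
    have h3 := cmi_chain hw (L cY : (Idx m → V) → V) (BT R) (L (cB r)) (L cW)
    have h4 := cmi_comp_le hw (L cY : (Idx m → V) → V) (fun x => (BT R x, L (cB r) x)) (L cW)
      (fun q : (Fin 8 → V) × V => fun r' => if r' = r then q.2 else q.1 r')
    have e1 : (fun x : Idx m → V => (fun q : (Fin 8 → V) × V => fun r' =>
        if r' = r then q.2 else q.1 r') (BT R x, L (cB r) x)) = BT (insert r R) := by
      funext x r'
      unfold BT
      by_cases hrr : r' = r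
      · subst hrr; simp
      · simp [hrr]
    rw [e1] at h4
    rw [Finset.card_insert_of_notMem hr]
    push_cast
    linarith

/-- near independence of `U R` -/
theorem cmi_U (h : Mn η μ₀ p₁ p₂) {Bd : ℝ}
    (hBd : ∀ c : Idx m → ZMod m, H (pl (pp m p₁ p₂)) (L c : (Idx m → V) → V) ≤
      (ent p₁ + ent p₂) / 2 + Bd)
    (cY : Idx m → ZMod m) (R : Finset (Fin 8))
    (hY : ∀ r ∈ R, ∀ i, cY (flip m r i) = cY i) :
    cmi (pl (pp m p₁ p₂)) (L cY : (Idx m → V) → V) (L (cU R)) (L cW) ≤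
      R.card * (2 * η * Bd) := by
  have hw : Law (pl (pp m p₁ p₂)) := law_pl (law_pp h.l1 h.l2)
  have h1 := cmi_comp_le hw (L cY : (Idx m → V) → V) (BT R) (L cW)
    (fun q : Fin 8 → V => ∑ r ∈ R, q r)
  have e1 : (fun x : Idx m → V => (fun q : Fin 8 → V => ∑ r ∈ R, q r) (BT R x)) = L (cU R) := by
    funext x
    rw [L_cU]
    refine Finset.sum_congr rfl fun r hr => ?_
    unfold BT
    rw [if_pos hr]
  rw [e1] at h1
  exact h1.trans (cmi_BT h hBd cY R hY)

/-! ### permutations -/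

/-- permute the bits -/
def permB (m : ℕ) (τ : Equiv.Perm (Fin 8)) : Idx m ≃ Idx m where
  toFun i := ((i.1.1, i.1.2.1, fun r => i.1.2.2 (τ r)), i.2)
  invFun i := ((i.1.1, i.1.2.1, fun r => i.1.2.2 (τ.symm r)), i.2)
  left_inv i := by simp
  right_inv i := by simp

/-- flip one bit -/
def flipB (m : ℕ) (r : Fin 8) : Idx m ≃ Idx m where
  toFun i := ((i.1.1, i.1.2.1, Function.update i.1.2.2 r (!(i.1.2.2 r))), i.2)
  invFun i := ((i.1.1, i.1.2.1, Function.update i.1.2.2 r (!(i.1.2.2 r))), i.2)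
  left_inv i := by simp
  right_inv i := by simp

/-- swap the labels -/
def swapL (m : ℕ) : Idx m ≃ Idx m where
  toFun i := ((i.1.2.1, i.1.1, i.1.2.2), i.2)
  invFun i := ((i.1.2.1, i.1.1, i.1.2.2), i.2)
  left_inv i := by simp
  right_inv i := by simp

/-- the shear -/
def shear (m : ℕ) : Idx m ≃ Idx m where
  toFun i := ((i.1.1 + ∑ r : Fin 8, (if i.1.2.2 r then i.1.2.1 else 0), i.1.2.1, i.1.2.2), i.2)
  invFun i := ((i.1.1 - ∑ r : Fin 8, (if i.1.2.2 r then i.1.2.1 else 0), i.1.2.1, i.1.2.2), i.2)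
  left_inv i := by simp
  right_inv i := by simp

/-- invariance of the entropy of pairs of forms -/
theorem H_pair_perm (c c' : Idx m → ZMod m) (e : Idx m ≃ Idx m) (he : ∀ i, (e i).2 = i.2) :
    H (pl (pp m p₁ p₂)) (fun x : Idx m → V => (L (fun i => c (e i)) x, L (fun i => c' (e i)) x)) =
      H (pl (pp m p₁ p₂)) (fun x : Idx m → V => (L c x, L c' x)) := by
  have h1 := H_perm (p := pp m p₁ p₂) e.symm (fun i => by
    have h2 := he (e.symm i)
    rw [e.apply_symm_apply] at h2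
    unfold pp
    rw [← h2]) (fun x : Idx m → V => (L c x, L c' x))
  rw [← h1]
  congr 1
  funext x
  rw [L_perm, L_perm]
  simp

theorem H_single_perm (c : Idx m → ZMod m) (e : Idx m ≃ Idx m) (he : ∀ i, (e i).2 = i.2) :
    H (pl (pp m p₁ p₂)) (L (fun i => c (e i)) : (Idx m → V) → V) =
      H (pl (pp m p₁ p₂)) (L c : (Idx m → V) → V) := by
  have h1 := H_perm (p := pp m p₁ p₂) e.symm (fun i => by
    have h2 := he (e.symm i)
    rw [e.apply_symm_apply] at h2
    unfold pp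
    rw [← h2]) (L c : (Idx m → V) → V)
  rw [← h1]
  congr 1
  funext x
  rw [L_perm]
  simp

/-- `H(U_R, W)` -/
noncomputable def uu (V : Type*) [AddCommGroup V] [Fintype V] (m : ℕ) [NeZero m]
    [Module (ZMod m) V] (p₁ p₂ : V → ℝ) (R : Finset (Fin 8)) : ℝ :=
  H (pl (pp m p₁ p₂)) (fun x : Idx m → V => (L (cU R) x, L cW x))

theorem uu_perm (R : Finset (Fin 8)) (τ : Equiv.Perm (Fin 8)) :
    uu V m p₁ p₂ (R.map τ.toEmbedding) = uu V m p₁ p₂ R := by
  unfold uu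
  rw [← H_pair_perm (cU R) cW (permB m τ) (fun _ => rfl)]
  congr 1
  funext x
  simp only [Prod.mk.injEq]
  constructor
  · congr 1
    funext i
    rw [cU_apply, cU_apply, Finset.sum_map]
    rfl
  · rfl

theorem A_add_U : H (pl (pp m p₁ p₂)) (fun x : Idx m → V => (L (cA + cU Finset.univ) x, L cW x)) =
    H (pl (pp m p₁ p₂)) (fun x : Idx m → V => (L cA x, L cW x)) := by
  rw [← H_pair_perm cA cW (shear m) (fun _ => rfl)]
  have h1 : (cA + cU Finset.univ : Idx m → ZMod m) = fun i => cA (shear m i) := by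
    funext i
    rw [Pi.add_apply, cU_apply]
    rfl
  rw [h1]
  rfl

theorem A_eq_W : H (pl (pp m p₁ p₂)) (L cA : (Idx m → V) → V) =
    H (pl (pp m p₁ p₂)) (L cW : (Idx m → V) → V) :=
  H_single_perm cW (swapL m) (fun _ => rfl)

theorem Zs_eq_Zf (r : Fin 8) : H (pl (pp m p₁ p₂)) (Zs (ph V m) (flip m r) (Jr m r)) =
    H (pl (pp m p₁ p₂)) (Zf (ph V m) (Jr m r)) := by
  rw [Zf_eq, Zs_eq, ← H_single_perm (cB r) (flipB m r) (fun _ => rfl)]
  congr 2
  funext i
  unfold cB flipB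
  simp only [Equiv.coe_fn_mk, Function.update_self]
  cases i.1.2.2 r <;> simp

theorem cU_union {R R' : Finset (Fin 8)} (h : Disjoint R R') :
    (cU (R ∪ R') : Idx m → ZMod m) = cU R + cU R' := by
  unfold cU
  rw [Finset.sum_union h]

/-- lower bound for `u(R)` -/
theorem uu_ge (h : Mn η μ₀ p₁ p₂) {R : Finset (Fin 8)} {r0 : Fin 8} (hr : r0 ∈ R) :
    ent p₁ + ent p₂ ≤ uu V m p₁ p₂ R := by
  have hp : ∀ i, Law (pp m p₁ p₂ i) := law_pp h.l1 h.l2
  have h1 := H_pair_ge hp (cU R) cW ((0, 1, fun r => decide (r = r0)), false)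
    ((0, 1, fun _ => false), true) (by simp)
    (by
      rw [cU_apply, Finset.sum_eq_single r0]
      · simp [cB]
      · intro r _ hne
        simp [cB, hne]
      · intro hc
        exact absurd hr hc) rfl
    (by
      rw [cU_apply]
      refine Finset.sum_eq_zero fun r _ => ?_
      simp [cB]) rfl
  unfold pp at h1
  simp only [if_true] at h1
  exact h1

/-- merging -/
theorem merge (h : Mn η μ₀ p₁ p₂) {Bd : ℝ}
    (hBd : ∀ c : Idx m → ZMod m, H (pl (pp m p₁ p₂)) (L c : (Idx m → V) → V) ≤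
      (ent p₁ + ent p₂) / 2 + Bd) (hB0 : 0 ≤ Bd) (hη : η ≤ 1)
    (R R' : Finset (Fin 8)) (τ : Equiv.Perm (Fin 8)) (hτ : R.map τ.toEmbedding = R')
    (hd : Disjoint R R') (r0 : Fin 8) (hr : r0 ∈ R) (hc : R'.card ≤ 4) :
    D2 p₁ p₂ ≤ 2 * (uu V m p₁ p₂ (R ∪ R') - uu V m p₁ p₂ R) + 37 * (η * Bd) := by
  have hp : ∀ i, Law (pp m p₁ p₂ i) := law_pp h.l1 h.l2
  have hw : Law (pl (pp m p₁ p₂)) := law_pl hp
  have hη0 := h.pos
  have h1 := bsg_lin h hp (cU R) (cU R') cW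
    ((0, 1, fun r => decide (r = r0)), false) ((0, 1, fun r => decide (r = r0)), true)
    rfl rfl
    (by
      rw [cU_apply, Finset.sum_eq_single r0]
      · simp [cB]
      · intro r _ hne
        simp [cB, hne]
      · intro hc
        exact absurd hr hc)
    (by
      rw [cU_apply, Finset.sum_eq_single r0]
      · simp [cB]
      · intro r _ hne
        simp [cB, hne]
      · intro hc
        exact absurd hr hc)
  rw [← cU_union hd] at h1
  have h2 := cmi_U h hBd (cU R) R' (fun r hr' i =>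
    cU_flip (fun hc => (Finset.disjoint_left.1 hd) hc hr') i)
  have h3 : (R'.card : ℝ) * (2 * η * Bd) ≤ 4 * (2 * η * Bd) := by
    apply mul_le_mul_of_nonneg_right _ (by positivity)
    exact_mod_cast hc
  have h4 : H (pl (pp m p₁ p₂)) (fun x : Idx m → V => (L (cU R') x, L cW x)) =
      uu V m p₁ p₂ R := by
    rw [← uu_perm R τ, hτ]
    rfl
  have h5 : H (pl (pp m p₁ p₂)) (fun x : Idx m → V => (L (cU R) x, L cW x)) =
      uu V m p₁ p₂ R := rfl
  have h6 : H (pl (pp m p₁ p₂)) (fun x : Idx m → V => (L (cU (R ∪ R')) x, L cW x)) =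
      uu V m p₁ p₂ (R ∪ R') := rfl
  have h7 : cmi (pl (pp m p₁ p₂)) (L (cU R)) (L (cU R')) (L cW : (Idx m → V) → V) =
      uu V m p₁ p₂ R + uu V m p₁ p₂ R - H (pl (pp m p₁ p₂)) (fun x : Idx m → V =>
        (L (cU R) x, L (cU R') x, L cW x)) - H (pl (pp m p₁ p₂)) (L cW : (Idx m → V) → V) := by
    unfold cmi
    rw [h4, h5]
  rw [h4, h5, h6] at h1
  have h8 : H (pl (pp m p₁ p₂)) (fun x : Idx m → V => (L (cU R) x, L (cU R') x, L cW x)) =
      uu V m p₁ p₂ R + uu V m p₁ p₂ R - cmi (pl (pp m p₁ p₂)) (L (cU R)) (L (cU R'))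
        (L cW : (Idx m → V) → V) - H (pl (pp m p₁ p₂)) (L cW : (Idx m → V) → V) := by
    rw [h7]; ring
  rw [h8] at h1
  have h9 := hBd (cU R)
  have h10 := hBd cW
  have h11 := uu_ge (V := V) (m := m) h hr
  have h12 : uu V m p₁ p₂ (R ∪ R') ≤ H (pl (pp m p₁ p₂)) (L (cU (R ∪ R')) : (Idx m → V) → V) +
      H (pl (pp m p₁ p₂)) (L cW : (Idx m → V) → V) := H_subadd hw _ _
  have h13 := hBd (cU (R ∪ R'))
  set I := cmi (pl (pp m p₁ p₂)) (L (cU R)) (L (cU R')) (L cW : (Idx m → V) → V) with hI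
  have hE : 2 * H (pl (pp m p₁ p₂)) (L (cU R) : (Idx m → V) → V) - (ent p₁ + ent p₂) / 2
        - (uu V m p₁ p₂ R + uu V m p₁ p₂ R - I - H (pl (pp m p₁ p₂)) (L cW : (Idx m → V) → V)
          - uu V m p₁ p₂ (R ∪ R')) ≤ 13 * Bd := by
    have hI2 : I ≤ 8 * Bd := by
      have : 4 * (2 * η * Bd) ≤ 8 * Bd := by nlinarith
      linarith
    linarith
  have h14 := mul_le_mul_of_nonneg_left hE hη0
  nlinarith [h1, h2, h3, h14]

/-- the contradiction -/
theorem k_zero (h : Mn η μ₀ p₁ p₂) {Bd : ℝ}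
    (hBd : ∀ c : Idx m → ZMod m, H (pl (pp m p₁ p₂)) (L c : (Idx m → V) → V) ≤
      (ent p₁ + ent p₂) / 2 + Bd) (hB0 : 0 ≤ Bd) (hη : η ≤ 1)
    (hs : 500 * (η * Bd) ≤ D2 p₁ p₂) : D2 p₁ p₂ = 0 := by
  have hp : ∀ i, Law (pp m p₁ p₂ i) := law_pp h.l1 h.l2
  have hw : Law (pl (pp m p₁ p₂)) := law_pl hp
  have hη0 := h.pos
  have m0 := merge (V := V) (m := m) h hBd hB0 hη {0} {1} (Equiv.swap 0 1) (by decide) (by decide) 0
    (by decide) (by decide)
  have m1 := merge (V := V) (m := m) h hBd hB0 hη ({0} ∪ {1}) {2, 3}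
    (Equiv.swap 0 2 * Equiv.swap 1 3) (by decide) (by decide) 0 (by decide) (by decide)
  have m2 := merge (V := V) (m := m) h hBd hB0 hη (({0} ∪ {1}) ∪ {2, 3}) {4, 5, 6, 7}
    (Equiv.swap 0 4 * Equiv.swap 1 5 * Equiv.swap 2 6 * Equiv.swap 3 7) (by decide) (by decide) 0
    (by decide) (by decide)
  have hun : ((({0} ∪ {1}) ∪ {2, 3}) ∪ {4, 5, 6, 7} : Finset (Fin 8)) = Finset.univ := by decide
  rw [hun] at m2
  -- `u {0}`
  have F := flip_data (V := V) (m := m) (p₁ := p₁) (p₂ := p₂) 0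
  have b1 := D_upper h hp F
  have b2 := H_col_W hp F
  rw [Zs_eq_Zf] at b1 b2
  have e1 : (fun x : Idx m → V => Zf (ph V m) (Jr m 0) x + Zs (ph V m) (flip m 0) (Jr m 0) x) =
      L cW := by
    funext x
    exact (W_eq 0 x).symm
  have e2 : (fun x : Idx m → V => (Zf (ph V m) (Jr m 0) x, Zf (ph V m) (Jr m 0) x +
      Zs (ph V m) (flip m 0) (Jr m 0) x)) = fun x => (L (cU {0}) x, L cW x) := by
    funext x
    rw [← W_eq 0 x, Zf_eq, L_cU, Finset.sum_singleton]
  rw [e1] at b1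
  rw [e2] at b2
  have e3 : H (pl (pp m p₁ p₂)) (fun x : Idx m → V => (L (cU {0}) x, L cW x)) =
      uu V m p₁ p₂ {0} := rfl
  rw [e3] at b2
  have b3 : H (pl (pp m p₁ p₂)) (Zf (ph V m) (Jr m 0)) ≤ (ent p₁ + ent p₂) / 2 + Bd := by
    rw [Zf_eq]
    exact hBd _
  -- the final use of BSG
  have h1 := bsg_lin (V := V) h hp cA (cU Finset.univ) cW ((1, 0, fun _ => false), false)
    ((1, 0, fun _ => false), true) rfl rfl rfl rfl
  rw [A_add_U] at h1
  have h2 := cmi_U (V := V) h hBd cA Finset.univ (fun r _ i => cA_flip r i)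
  have h3 : ((Finset.univ : Finset (Fin 8)).card : ℝ) = 8 := by simp
  rw [h3] at h2
  have e4 : H (pl (pp m p₁ p₂)) (fun x : Idx m → V => (L (cU Finset.univ) x, L cW x)) =
      uu V m p₁ p₂ Finset.univ := rfl
  rw [e4] at h1
  have h8 : H (pl (pp m p₁ p₂)) (fun x : Idx m → V => (L cA x, L (cU Finset.univ) x, L cW x)) =
      H (pl (pp m p₁ p₂)) (fun x : Idx m → V => (L cA x, L cW x)) + uu V m p₁ p₂ Finset.univ
        - cmi (pl (pp m p₁ p₂)) (L cA) (L (cU Finset.univ))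
        (L cW : (Idx m → V) → V) - H (pl (pp m p₁ p₂)) (L cW : (Idx m → V) → V) := by
    unfold cmi
    rw [← e4]
    ring
  rw [h8] at h1
  have h9 : H (pl (pp m p₁ p₂)) (fun x : Idx m → V => (L cA x, L cW x)) ≤
      H (pl (pp m p₁ p₂)) (L cA : (Idx m → V) → V) +
      H (pl (pp m p₁ p₂)) (L cW : (Idx m → V) → V) := H_subadd hw _ _
  rw [A_eq_W] at h9 h1
  have h10 := hBd cW
  have h11 := uu_ge (V := V) (m := m) h (Finset.mem_univ (0 : Fin 8))
  set I := cmi (pl (pp m p₁ p₂)) (L cA) (L (cU Finset.univ)) (L cW : (Idx m → V) → V) with hI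
  set a := H (pl (pp m p₁ p₂)) (fun x : Idx m → V => (L cA x, L cW x)) with ha
  set s := H (pl (pp m p₁ p₂)) (L cW : (Idx m → V) → V) with hs'
  set β := H (pl (pp m p₁ p₂)) (Zf (ph V m) (Jr m 0)) with hβ
  have hI2 : I ≤ 16 * Bd := by
    have : 8 * (2 * η * Bd) ≤ 16 * Bd := by nlinarith
    linarith
  have hE : 2 * s - (ent p₁ + ent p₂) / 2 - (a + uu V m p₁ p₂ Finset.univ - I - s - a) ≤
      20 * Bd := by linarith
  have h14 := mul_le_mul_of_nonneg_left hE hη0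
  have h15 : η * (β - (ent p₁ + ent p₂) / 2) ≤ η * Bd := by
    apply mul_le_mul_of_nonneg_left _ hη0
    linarith
  have hk := h.k_nonneg
  nlinarith [h1, h2, h14, h15, m0, m1, m2, b1, b2, h9, hk, hs]

end Pool.Agent.TH404.Tor
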