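import Pool.Agent.H24.Lib.R_seed8.TH404.Tor.PLaw
set_option autoImplicit false

/-! Growth of convolution powers and entropy of weighted sums. -/

open scoped Classical

namespace Pool.Agent.TH404.Tor

open H137.PFR hiding dist

variable {Ω Ω' α β γ δ : Type*} [Fintype Ω] [Fintype Ω'] [Fintype α] [Fintype β] [Fintype γ]
  [Fintype δ]

variable {V : Type*} [AddCommGroup V] [Fintype V]

variable {η : ℝ} {μ₀ p₁ p₂ : V → ℝ}

/-- bundled law -/
def mkL {p : V → ℝ} (h : Law p) : PL V := ⟨p, h⟩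

/-- law level growth step -/
theorem growth_step (h : Mn η μ₀ p₁ p₂) (b₁ b₂ : PL V) :
    ((mkL h.l1 * b₁) * (mkL h.l2 * b₂)).e ≤ (b₁ * b₂).e +
      (1 + η) / 2 * (((mkL h.l1 * b₁).e - b₁.e) + ((mkL h.l2 * b₂).e - b₂.e)) := by
  have hn1 : Law (prod p₁ b₁.1) := law_prod h.l1 b₁.2
  have hn2 : Law (prod p₂ b₂.1) := law_prod h.l2 b₂.2
  set W : (V × V) × (V × V) → ℝ := prod (prod p₁ b₁.1) (prod p₂ b₂.1) with hW
  have hWl : Law W := law_prod hn1 hn2
  have j1 : ∀ f : V × V → V, push W (fun q => f q.1) = push (prod p₁ b₁.1) f :=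
    fun f => push_prod_fst _ hn2 f
  have j2 : ∀ f : V × V → V, push W (fun q => f q.2) = push (prod p₂ b₂.1) f :=
    fun f => push_prod_snd hn1 _ f
  have i0 : Ind W (fun q => (q.1.1, q.1.2)) (fun q => (q.2.1, q.2.2)) :=
    ind_prod hn1 hn2 (fun p : V × V => (p.1, p.2)) (fun p : V × V => (p.1, p.2))
  have n1 : push W (fun q => q.1.1) = p₁ := by
    rw [j1 (fun p => p.1), push_prod_fst p₁ b₁.2 (fun x => x), push_id']
  have n2 : push W (fun q => q.1.2) = b₁.1 := by
    rw [j1 (fun p => p.2), push_prod_snd h.l1 b₁.1 (fun x => x), push_id']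
  have n3 : push W (fun q => q.2.1) = p₂ := by
    rw [j2 (fun p => p.1), push_prod_fst p₂ b₂.2 (fun x => x), push_id']
  have n4 : push W (fun q => q.2.2) = b₂.1 := by
    rw [j2 (fun p => p.2), push_prod_snd h.l2 b₂.1 (fun x => x), push_id']
  have i1 : Ind W (fun q => q.1.1) (fun q => q.1.2) := by
    intro a b
    have e1 : push W (fun q => (q.1.1, q.1.2)) = push (prod p₁ b₁.1) (fun p => (p.1, p.2)) :=
      push_prod_fst _ hn2 (fun p : V × V => (p.1, p.2))
    rw [e1, n1, n2]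
    have e2 := push_prod p₁ b₁.1 (fun x : V => x) (fun x : V => x) a b
    rw [push_id' p₁, push_id' b₁.1] at e2
    exact e2
  have i2 : Ind W (fun q => q.2.1) (fun q => q.2.2) := by
    intro a b
    have e1 : push W (fun q => (q.2.1, q.2.2)) = push (prod p₂ b₂.1) (fun p => (p.1, p.2)) :=
      push_prod_snd hn1 _ (fun p : V × V => (p.1, p.2))
    rw [e1, n3, n4]
    have e2 := push_prod p₂ b₂.1 (fun x : V => x) (fun x : V => x) a b
    rw [push_id' p₂, push_id' b₂.1] at e2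
    exact e2
  have hm := fib_growth h hWl (fun q => q.1.1) (fun q => q.2.1) (fun q => q.1.2) (fun q => q.2.2)
    (AddMonoidHom.id V) i0 i1 i2 n1 n3
  simp only [AddMonoidHom.id_apply] at hm
  have m1 : H W (fun q => q.1.1 + q.1.2) = (mkL h.l1 * b₁).e := by
    unfold H
    rw [i1.push_add, n1, n2]
    rfl
  have m2 : H W (fun q => q.2.1 + q.2.2) = (mkL h.l2 * b₂).e := by
    unfold H
    rw [i2.push_add, n3, n4]
    rfl
  have m3 : H W (fun q => q.1.2) = b₁.e := by unfold H; rw [n2]; rfl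
  have m4 : H W (fun q => q.2.2) = b₂.e := by unfold H; rw [n4]; rfl
  have m5 : H W (fun q => q.1.2 + q.2.2) = (b₁ * b₂).e := by
    have := (i0.comp (fun q => q.2) (fun q => q.2)).push_add
    unfold H
    rw [this, n2, n4]
    rfl
  have m6 : H W (fun q => q.1.1 + q.1.2 + (q.2.1 + q.2.2)) =
      ((mkL h.l1 * b₁) * (mkL h.l2 * b₂)).e := by
    have := (i0.comp (fun q => q.1 + q.2) (fun q => q.1 + q.2)).push_add
    have a1 := i1.push_add
    have a2 := i2.push_add
    unfold H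
    rw [this, a1, a2, n1, n2, n3, n4]
    rfl
  rw [m1, m2, m3, m4, m5, m6] at hm
  exact hm

/-- the law of a cell -/
noncomputable def cell (h : Mn η μ₀ p₁ p₂) : PL V := mkL h.l1 * mkL h.l2

theorem cell_e (h : Mn η μ₀ p₁ p₂) : (cell h).e = D2 p₁ p₂ + (ent p₁ + ent p₂) / 2 := by
  have h1 : (cell h).e = ent (conv p₁ p₂) := rfl
  rw [h1]
  unfold D2
  ring

/-- growth for powers -/
theorem growth_pow (h : Mn η μ₀ p₁ p₂) (n : ℕ) :
    ((cell h) ^ (n + 1) * (cell h) ^ (n + 1)).e ≤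
      D2 p₁ p₂ + (cell h ^ (n + 1)).e
        + η * ((cell h ^ (n + 1)).e - (ent p₁ + ent p₂) / 2) := by
  set P₁ : PL V := mkL h.l1 with hP1
  set P₂ : PL V := mkL h.l2 with hP2
  have hc : cell h = P₁ * P₂ := rfl
  induction n with
  | zero =>
    have h1 := growth_step h.symm P₁ P₂
    have e1 : (mkL h.symm.l1 * P₁) = cell h := by rw [hc, mul_comm]
    have e2 : (mkL h.symm.l2 * P₂) = cell h := hc.symm
    rw [e1, e2] at h1
    have e3 : (cell h).e = D2 p₁ p₂ + (ent p₁ + ent p₂) / 2 := cell_e h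
    have e4 : P₁.e = ent p₁ := rfl
    have e5 : P₂.e = ent p₂ := rfl
    rw [e4, e5] at h1
    rw [zero_add, pow_one]
    nlinarith [h1, e3]
  | succ n ih =>
    set Q := cell h ^ (n + 1) with hQ
    have h1 := growth_step h Q Q
    have h2 := growth_step h.symm (P₁ * Q) (P₂ * Q)
    have e1 : (mkL h.symm.l1 * (P₁ * Q)) = cell h ^ (n + 1 + 1) := by
      rw [pow_succ, ← hQ, hc, ← mul_assoc, mul_comm _ Q]
      congr 1
      rw [mul_comm]
    have e2 : (mkL h.symm.l2 * (P₂ * Q)) = cell h ^ (n + 1 + 1) := by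
      rw [pow_succ, ← hQ, hc, ← mul_assoc, mul_comm _ Q]
    rw [e1, e2] at h2
    nlinarith [h1, h2, ih]

/-- the entropy of `2^j` cells -/
theorem growth_two (h : Mn η μ₀ p₁ p₂) (j : ℕ) :
    (cell h ^ (2 ^ j)).e - (ent p₁ + ent p₂) / 2 ≤ (j + 1) * (1 + η) ^ j * D2 p₁ p₂ := by
  have hk := h.k_nonneg
  have hη := h.pos
  induction j with
  | zero =>
    rw [pow_zero, pow_one, cell_e]
    simp
  | succ j ih =>
    obtain ⟨n, hn⟩ : ∃ n, 2 ^ j = n + 1 := ⟨2 ^ j - 1, by
      have : 0 < 2 ^ j := by positivity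
      omega⟩
    have h1 := growth_pow h n
    rw [← hn] at h1
    have e1 : cell h ^ (2 ^ (j + 1)) = cell h ^ (2 ^ j) * cell h ^ (2 ^ j) := by
      rw [← pow_add]
      congr 1
      rw [pow_succ]
      ring
    rw [e1]
    have h2 : (cell h ^ (2 ^ j) * cell h ^ (2 ^ j)).e - (ent p₁ + ent p₂) / 2 ≤
        D2 p₁ p₂ + (1 + η) * ((cell h ^ (2 ^ j)).e - (ent p₁ + ent p₂) / 2) := by
      nlinarith [h1]
    have h3 : (1 : ℝ) ≤ (1 + η) ^ (j + 1) := one_le_pow₀ (by linarith)
    have h4 : (1 + η) * ((cell h ^ (2 ^ j)).e - (ent p₁ + ent p₂) / 2) ≤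
        (1 + η) * ((j + 1) * (1 + η) ^ j * D2 p₁ p₂) :=
      mul_le_mul_of_nonneg_left ih (by linarith)
    have h5 : D2 p₁ p₂ ≤ (1 + η) ^ (j + 1) * D2 p₁ p₂ := by nlinarith
    have h6 : (1 + η) * ((j + 1) * (1 + η) ^ j * D2 p₁ p₂) =
        (j + 1) * ((1 + η) ^ (j + 1) * D2 p₁ p₂) := by
      rw [pow_succ]; ring
    push_cast
    nlinarith [h2, h4, h5, h6]

theorem pow_le_three {η : ℝ} (hη : 0 ≤ η) (j : ℕ) (h : η * j ≤ 1) : (1 + η) ^ j ≤ 3 := by
  have h1 : (1 + η) ^ j ≤ Real.exp η ^ j := by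
    apply pow_le_pow_left₀ (by linarith)
    linarith [Real.add_one_le_exp η]
  rw [← Real.exp_nat_mul] at h1
  have h2 : Real.exp (j * η) ≤ Real.exp 1 := Real.exp_le_exp.2 (by linarith [mul_comm η (j : ℝ)])
  have h3 := Real.exp_one_lt_d9
  linarith

/-- doubling -/
def dbl (V : Type*) [AddCommGroup V] : V →+ V := nsmulAddMonoidHom 2

/-- the noise -/
noncomputable def noise (Q : PL V) : ℕ → PL V
  | 0 => 1
  | t + 1 => Q * PL.map (dbl V) (noise Q t)

theorem lw_id (y : PL V) : lw y.2 (fun x : V => x) = y := Subtype.ext (push_id' y.1)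

theorem Q_dbl (Q : PL V) : (Q * PL.map (dbl V) Q).e - Q.e ≤ 3 * ((Q * Q).e - Q.e) := by
  have h1 := cost_add Q Q Q.2 (fun x => x) (fun x => x)
  have h2 : lw Q.2 (fun x : V => x + x) = PL.map (dbl V) Q := by
    apply Subtype.ext
    change push Q.1 (fun x : V => x + x) = push Q.1 (dbl V)
    congr 1
    funext x
    simp [dbl, two_nsmul]
  rw [h2, lw_id] at h1
  have h3 : (Q * PL.map (dbl V) Q).e ≤ (Q * Q * PL.map (dbl V) Q).e := by
    rw [mul_assoc]
    exact PL.e_le_mul' _ _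
  linarith

theorem noise_e (Q : PL V) (t : ℕ) :
    (noise Q (t + 1)).e ≤ Q.e + 3 * t * ((Q * Q).e - Q.e) := by
  induction t with
  | zero =>
    have : noise Q (0 + 1) = Q := by
      change Q * PL.map (dbl V) 1 = Q
      rw [PL.map_one, mul_one]
    rw [this]
    simp
  | succ t ih =>
    have e1 : noise Q (t + 1 + 1) = Q * PL.map (dbl V) Q *
        PL.map (dbl V) (PL.map (dbl V) (noise Q t)) := by
      change Q * PL.map (dbl V) (Q * PL.map (dbl V) (noise Q t)) = _
      rw [PL.map_mul, mul_assoc]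
    have h1 := cost_mono (PL.map (dbl V) Q) Q (PL.map (dbl V) (PL.map (dbl V) (noise Q t)))
    have h2 := cost_hom (dbl V) Q (PL.map (dbl V) (noise Q t))
    have e2 : Q * PL.map (dbl V) (noise Q t) = noise Q (t + 1) := rfl
    have h3 := Q_dbl Q
    rw [mul_comm (PL.map (dbl V) Q) Q, ← e1] at h1
    rw [e2] at h2
    push_cast
    linarith

variable {ι : Type*} [Fintype ι] [DecidableEq ι] {p : ι → V → ℝ}

/-- integer linear combination -/
def Ln (c : ι → ℕ) (x : ι → V) : V := ∑ i, c i • x i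

/-- the cost of a linear combination with small coefficients -/
theorem cost_Ln (hp : ∀ i, Law (p i)) (Q : PL V) (D : ℝ) (hD : 0 ≤ D)
    (hs : ∀ s : Finset ι, (Q * lw (law_pl hp) (fun x : ι → V => ∑ i ∈ s, x i)).e - Q.e ≤ D)
    (t : ℕ) : ∀ c : ι → ℕ, (∀ i, c i < 2 ^ t) →
      (noise Q t * lw (law_pl hp) (Ln c)).e - (noise Q t).e ≤ t * D := by
  induction t with
  | zero =>
    intro c hc
    have : Ln c = fun _ : ι → V => (0 : V) := by
      funext x
      unfold Ln
      refine Finset.sum_eq_zero fun i _ => ?_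
      have : c i = 0 := by
        have := hc i
        simpa using this
      rw [this, zero_smul]
    rw [this, lw_zero]
    simp
  | succ t ih =>
    intro c hc
    have e1 : Ln c = fun x : ι → V =>
        (∑ i ∈ Finset.univ.filter (fun i => c i % 2 = 1), x i) + dbl V (Ln (fun i => c i / 2) x) := by
      funext x
      unfold Ln
      rw [map_sum, Finset.sum_filter, ← Finset.sum_add_distrib]
      refine Finset.sum_congr rfl fun i _ => ?_
      have h1 : dbl V ((c i / 2) • x i) = (2 * (c i / 2)) • x i := by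
        simp [dbl, mul_smul]
      rw [h1]
      split_ifs with h2
      · conv_lhs => rw [← Nat.div_add_mod (c i) 2, h2]
        rw [add_smul, one_smul, add_comm]
      · have h3 : c i % 2 = 0 := by omega
        conv_lhs => rw [← Nat.div_add_mod (c i) 2, h3]
        rw [add_zero, zero_add]
    have h1 := cost_add Q (PL.map (dbl V) (noise Q t)) (law_pl hp)
      (fun x : ι → V => ∑ i ∈ Finset.univ.filter (fun i => c i % 2 = 1), x i)
      (fun x => dbl V (Ln (fun i => c i / 2) x))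
    have h2 := hs (Finset.univ.filter (fun i => c i % 2 = 1))
    have h3 := cost_hom (dbl V) (noise Q t) (lw (law_pl hp) (Ln (fun i => c i / 2)))
    have e2 : PL.map (dbl V) (lw (law_pl hp) (Ln (fun i => c i / 2))) =
        lw (law_pl hp) (fun x => dbl V (Ln (fun i => c i / 2) x)) := by
      apply Subtype.ext
      exact push_push _ _ _
    have h4 := ih (fun i => c i / 2) (fun i => by
      have := hc i
      rw [pow_succ] at this
      omega)
    rw [← e1] at h1
    rw [e2] at h3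
    have e3 : noise Q (t + 1) = Q * PL.map (dbl V) (noise Q t) := rfl
    rw [← e3] at h1
    push_cast
    linarith

/-- entropy of a weighted sum -/
theorem H_Ln_le (hp : ∀ i, Law (p i)) (Q : PL V) (D : ℝ) (hD : 0 ≤ D)
    (hQ : (Q * Q).e - Q.e ≤ D)
    (hs : ∀ s : Finset ι, (Q * lw (law_pl hp) (fun x : ι → V => ∑ i ∈ s, x i)).e - Q.e ≤ D)
    (t : ℕ) (ht : 1 ≤ t) (c : ι → ℕ) (hc : ∀ i, c i < 2 ^ t) :
      H (pl p) (Ln c) ≤ Q.e + 4 * t * D := by
  obtain ⟨t, rfl⟩ : ∃ t', t = t' + 1 := ⟨t - 1, by omega⟩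
  have h1 := cost_Ln hp Q D hD hs (t + 1) c hc
  have h2 := noise_e Q t
  have h3 : (lw (law_pl hp) (Ln c)).e ≤ (noise Q (t + 1) * lw (law_pl hp) (Ln c)).e :=
    PL.e_le_mul' _ _
  have h3' : (lw (law_pl hp) (Ln c)).e = H (pl p) (Ln c) := rfl
  rw [h3'] at h3
  have h4 : 3 * (t : ℝ) * ((Q * Q).e - Q.e) ≤ 3 * t * D :=
    mul_le_mul_of_nonneg_left hQ (by positivity)
  push_cast at h1 ⊢
  nlinarith [h1, h2, h3, h4, hD]

/-- the law of a partial sum -/
theorem lw_sum (hp : ∀ i, Law (p i)) (s : Finset ι) :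
    lw (law_pl hp) (fun x : ι → V => ∑ i ∈ s, x i) = ∏ i ∈ s, mkL (hp i) := by
  induction s using Finset.induction_on with
  | empty =>
    simp only [Finset.sum_empty, Finset.prod_empty]
    exact lw_zero _
  | insert j s hj ih =>
    rw [Finset.prod_insert hj, ← ih]
    apply Subtype.ext
    change push (pl p) (fun x : ι → V => ∑ i ∈ insert j s, x i) =
      conv (p j) (push (pl p) (fun x => ∑ i ∈ s, x i))
    have hI : Ind (pl p) (fun x : ι → V => x j) (fun x => ∑ i ∈ s, x i) := by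
      refine ind_pl hp {j} _ _ ?_ ?_
      · intro x y hxy
        exact hxy j rfl
      · intro x y hxy
        refine Finset.sum_congr rfl fun i hi => hxy i ?_
        intro hc
        exact hj (hc ▸ hi)
    have h1 := hI.push_add
    rw [push_coord hp] at h1
    rw [← h1]
    congr 1
    funext x
    rw [Finset.sum_insert hj]

theorem cost_partial (hp : ∀ i, Law (p i)) (q : PL V) (n M : ℕ) (hn : n ≤ M)
    (hprod : ∏ i, mkL (hp i) = q ^ n) (s : Finset ι) :
    (q ^ M * lw (law_pl hp) (fun x : ι → V => ∑ i ∈ s, x i)).e - (q ^ M).e ≤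
      (q ^ M * q ^ M).e - (q ^ M).e := by
  rw [lw_sum hp s]
  have h1 : (q ^ M * (∏ i ∈ s, mkL (hp i))).e ≤
      (q ^ M * (∏ i ∈ s, mkL (hp i)) * (∏ i ∈ sᶜ, mkL (hp i))).e :=
    PL.e_le_mul _ _
  have h2 : (q ^ M * (∏ i ∈ s, mkL (hp i)) * (∏ i ∈ sᶜ, mkL (hp i))) =
      q ^ M * q ^ n := by
    rw [mul_assoc, Finset.prod_mul_prod_compl, hprod]
  have h3 : (q ^ M * q ^ n).e ≤ (q ^ M * q ^ n * q ^ (M - n)).e := PL.e_le_mul _ _
  have h4 : q ^ M * q ^ n * q ^ (M - n) = q ^ M * q ^ M := by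
    rw [mul_assoc, ← pow_add, Nat.add_sub_cancel' hn]
  rw [h2] at h1
  rw [h4] at h3
  linarith

end Pool.Agent.TH404.Tor
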