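import Pool.Agent.H24.Lib.R_seed8.TH404.Tor.Tau
set_option autoImplicit false

/-! Independence, product laws on `ι → G`. -/

open scoped Classical

namespace Pool.Agent.TH404.Tor

open H137.PFR hiding dist

variable {Ω Ω' α β γ δ : Type*} [Fintype Ω] [Fintype Ω'] [Fintype α] [Fintype β] [Fintype γ]
  [Fintype δ]

/-- independence of two random variables -/
def Ind {Ω α β : Type*} [Fintype Ω] (w : Ω → ℝ) (X : Ω → α) (Y : Ω → β) : Prop :=
  ∀ a b, push w (fun ω => (X ω, Y ω)) (a, b) = push w X a * push w Y b

omit [Fintype α] [Fintype β] in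
theorem Ind.push_eq {w : Ω → ℝ} {X : Ω → α} {Y : Ω → β} (h : Ind w X Y) :
    push w (fun ω => (X ω, Y ω)) = prod (push w X) (push w Y) := by
  funext p
  exact h p.1 p.2

theorem H_push (w : Ω → ℝ) (X : Ω → α) (f : α → β) :
    H (push w X) f = H w (fun ω => f (X ω)) := by
  unfold H
  rw [push_push]

theorem ent_push (w : Ω → ℝ) (X : Ω → α) : ent (push w X) = H w X := rfl

/-- variables with the same law have the same entropies -/
theorem H_congr_law {w : Ω → ℝ} {w' : Ω' → ℝ} {X : Ω → α} {Y : Ω' → α}
    (h : push w X = push w' Y) (f : α → β) :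
    H w (fun ω => f (X ω)) = H w' (fun ω => f (Y ω)) := by
  rw [← H_push w X f, ← H_push w' Y f, h]

theorem Ind.comp {w : Ω → ℝ} {X : Ω → α} {Y : Ω → β} (h : Ind w X Y)
    (f : α → γ) (g : β → δ) : Ind w (fun ω => f (X ω)) (fun ω => g (Y ω)) := by
  intro a b
  have h1 : push w (fun ω => (f (X ω), g (Y ω))) =
      push (push w (fun ω => (X ω, Y ω))) (fun p : α × β => (f p.1, g p.2)) :=
    (push_push w (fun ω => (X ω, Y ω)) (fun p : α × β => (f p.1, g p.2))).symm
  rw [h1, h.push_eq, push_prod, push_push, push_push]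

theorem Ind.symm {w : Ω → ℝ} {X : Ω → α} {Y : Ω → β} (h : Ind w X Y) : Ind w Y X := by
  intro a b
  have h1 : push w (fun ω => (Y ω, X ω)) (a, b) = push w (fun ω => (X ω, Y ω)) (b, a) := by
    unfold push
    refine Finset.sum_congr rfl fun ω _ => ?_
    simp only [Prod.mk.injEq]
    by_cases h1 : Y ω = a <;> by_cases h2 : X ω = b <;> simp [h1, h2]
  rw [h1, h b a, mul_comm]

theorem Ind.H {w : Ω → ℝ} (hw : Law w) {X : Ω → α} {Y : Ω → β} (h : Ind w X Y) :
    H w (fun ω => (X ω, Y ω)) = H w X + H w Y := by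
  have h1 : H137.PFR.H w (fun ω => (X ω, Y ω)) = ent (prod (push w X) (push w Y)) := by
    unfold H137.PFR.H
    rw [h.push_eq]
  have h2 := H_prod (law_push hw X) (law_push hw Y) (fun x : α => x) (fun x : β => x)
  have h3 : H137.PFR.H (prod (push w X) (push w Y)) (fun p => (p.1, p.2)) =
      ent (prod (push w X) (push w Y)) := H_id _
  rw [h3, H_id, H_id] at h2
  rw [h1, h2]
  rfl

/-- the law of the sum of independent variables -/
theorem Ind.push_add {V : Type*} [AddCommGroup V] [Fintype V] {w : Ω → ℝ} {X Y : Ω → V}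
    (h : Ind w X Y) : push w (fun ω => X ω + Y ω) = conv (push w X) (push w Y) := by
  unfold conv
  rw [← h.push_eq, push_push]

theorem Ind.CI {w : Ω → ℝ} {X : Ω → α} {Y : Ω → β} {C : Ω → γ} {D : Ω → δ}
    (h : Ind w (fun ω => (X ω, C ω)) (fun ω => (Y ω, D ω))) :
    CI w X Y (fun ω => (C ω, D ω)) := by
  intro x y c
  obtain ⟨c, d⟩ := c
  have e1 : push w (fun ω => (X ω, Y ω, (C ω, D ω))) (x, y, (c, d)) =
      push w (fun ω => ((X ω, C ω), (Y ω, D ω))) ((x, c), (y, d)) := by
    unfold push
    refine Finset.sum_congr rfl fun ω _ => ?_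
    simp only [Prod.mk.injEq]
    refine if_congr ?_ rfl rfl
    tauto
  have e2 := h.comp (fun p => p.2) (fun p => p.2) c d
  have e3 : push w (fun ω => (X ω, (C ω, D ω))) (x, (c, d)) =
      push w (fun ω => ((X ω, C ω), D ω)) ((x, c), d) := by
    unfold push
    refine Finset.sum_congr rfl fun ω _ => ?_
    simp only [Prod.mk.injEq]
    refine if_congr ?_ rfl rfl
    tauto
  have e4 : push w (fun ω => (Y ω, (C ω, D ω))) (y, (c, d)) =
      push w (fun ω => (C ω, (Y ω, D ω))) (c, (y, d)) := by
    unfold push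
    refine Finset.sum_congr rfl fun ω _ => ?_
    simp only [Prod.mk.injEq]
    refine if_congr ?_ rfl rfl
    tauto
  have e5 := h.comp (fun p => p) (fun p => p.2) (x, c) d
  have e6 := h.comp (fun p => p.2) (fun p => p) c (y, d)
  have e7 := h (x, c) (y, d)
  rw [e1, e3, e4, e5, e6, e7]
  have e8 : push w (fun ω => (C ω, D ω)) (c, d) = push w C c * push w D d := e2
  rw [e8]
  ring

/-! ### product laws on functions -/

variable {ι : Type*} [Fintype ι] [DecidableEq ι]

/-- the product law -/
noncomputable def pl {ι G : Type*} [Fintype ι] (p : ι → G → ℝ) : (ι → G) → ℝ :=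
  fun x => ∏ i, p i (x i)

theorem law_pl {G : Type*} [Fintype G] {p : ι → G → ℝ} (hp : ∀ i, Law (p i)) : Law (pl p) := by
  constructor
  · intro x
    exact Finset.prod_nonneg fun i _ => (hp i).1 _
  · unfold pl
    have h := (Finset.prod_univ_sum (fun _ : ι => (Finset.univ : Finset G))
      (fun i a => p i a)).symm
    rw [Fintype.piFinset_univ] at h
    rw [h]
    exact Finset.prod_eq_one fun i _ => (hp i).2

theorem push_pl_split {G κ : Type*} [Fintype G] [Fintype κ] (p : ι → G → ℝ)
    (s : Set ι) (F : (ι → G) → κ) :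
    push (pl p) F = push (prod (pl fun i : {i // i ∈ s} => p i.1)
      (pl fun i : {i // ¬ i ∈ s} => p i.1))
      (fun q => F ((Equiv.piEquivPiSubtypeProd (fun i => i ∈ s) (fun _ : ι => G)).symm q)) := by
  set e := Equiv.piEquivPiSubtypeProd (fun i => i ∈ s) (fun _ : ι => G) with he
  have hw : pl p = fun x => prod (pl fun i : {i // i ∈ s} => p i.1)
      (pl fun i : {i // ¬ i ∈ s} => p i.1) (e x) := by
    funext x
    unfold pl prod
    rw [← Fintype.prod_subtype_mul_prod_subtype (fun i => i ∈ s)]
    rfl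
  rw [hw]
  have := push_equiv e (prod (pl fun i : {i // i ∈ s} => p i.1)
      (pl fun i : {i // ¬ i ∈ s} => p i.1)) (fun q => F (e.symm q))
  simp only [Equiv.symm_apply_apply] at this
  exact this

theorem ind_pl {G : Type*} [Fintype G] [Nonempty G] {p : ι → G → ℝ} (hp : ∀ i, Law (p i))
    (s : Set ι) (f : (ι → G) → α) (g : (ι → G) → β) (hf : DependsOn f s)
    (hg : DependsOn g sᶜ) : Ind (pl p) f g := by
  set e := Equiv.piEquivPiSubtypeProd (fun i => i ∈ s) (fun _ : ι => G) with he
  set p1 : {i // i ∈ s} → G → ℝ := fun i => p i.1 with hp1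
  set p2 : {i // ¬ i ∈ s} → G → ℝ := fun i => p i.1 with hp2
  have hf' : ∀ q, f (e.symm q) = f (e.symm (q.1, fun _ => Classical.arbitrary G)) := by
    intro q
    refine hf fun i hi => ?_
    simp [he, Equiv.piEquivPiSubtypeProd, hi]
  have hg' : ∀ q, g (e.symm q) = g (e.symm (fun _ => Classical.arbitrary G, q.2)) := by
    intro q
    refine hg fun i hi => ?_
    have hi' : ¬ i ∈ s := hi
    simp [he, Equiv.piEquivPiSubtypeProd, hi']
  have l1 : Law (pl p1) := law_pl fun i => hp i.1
  have l2 : Law (pl p2) := law_pl fun i => hp i.1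
  intro a b
  rw [push_pl_split p s, push_pl_split p s, push_pl_split p s]
  have e1 : (fun q => (f (e.symm q), g (e.symm q))) =
      fun q : ({i // i ∈ s} → G) × ({i // ¬ i ∈ s} → G) =>
        ((fun u => f (e.symm (u, fun _ => Classical.arbitrary G))) q.1,
          (fun v => g (e.symm (fun _ => Classical.arbitrary G, v))) q.2) := by
    funext q
    rw [hf' q, hg' q]
  have e2 : (fun q => f (e.symm q)) =
      fun q : ({i // i ∈ s} → G) × ({i // ¬ i ∈ s} → G) =>
        (fun u => f (e.symm (u, fun _ => Classical.arbitrary G))) q.1 := by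
    funext q
    rw [hf' q]
  have e3 : (fun q => g (e.symm q)) =
      fun q : ({i // i ∈ s} → G) × ({i // ¬ i ∈ s} → G) =>
        (fun v => g (e.symm (fun _ => Classical.arbitrary G, v))) q.2 := by
    funext q
    rw [hg' q]
  rw [e1, e2, e3, push_prod (pl p1) (pl p2) (fun u => f (e.symm (u, fun _ => Classical.arbitrary G)))
    (fun v => g (e.symm (fun _ => Classical.arbitrary G, v))) a b,
    push_prod_fst (pl p1) l2 (fun u => f (e.symm (u, fun _ => Classical.arbitrary G))),
    push_prod_snd l1 (pl p2) (fun v => g (e.symm (fun _ => Classical.arbitrary G, v)))]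

/-- the law of one coordinate -/
theorem push_coord {G : Type*} [Fintype G] [Nonempty G] {p : ι → G → ℝ} (hp : ∀ i, Law (p i))
    (i : ι) : push (pl p) (fun x => x i) = p i := by
  funext a
  unfold push pl
  have h1 : ∀ x : ι → G, (if x i = a then ∏ j, p j (x j) else 0) =
      ∏ j, (if j = i then (if x j = a then p j (x j) else 0) else p j (x j)) := by
    intro x
    by_cases h : x i = a
    · rw [if_pos h]
      refine Finset.prod_congr rfl fun j _ => ?_
      by_cases hj : j = i
      · subst hj; simp [h]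
      · simp [hj]
    · rw [if_neg h]
      symm
      refine Finset.prod_eq_zero (Finset.mem_univ i) ?_
      simp [h]
  rw [Finset.sum_congr rfl fun x _ => h1 x]
  have h2 := (Finset.prod_univ_sum (fun _ : ι => (Finset.univ : Finset G))
      (fun j b => (if j = i then (if b = a then p j b else 0) else p j b))).symm
  rw [Fintype.piFinset_univ] at h2
  rw [h2, Finset.prod_eq_single i]
  · simp
  · intro j _ hj
    simp only [hj, if_false]
    exact (hp j).2
  · intro h
    exact absurd (Finset.mem_univ _) h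

/-- invariance under permutations of the coordinates that preserve the laws -/
theorem H_perm {G : Type*} [Fintype G] {p : ι → G → ℝ} (e : ι ≃ ι) (he : ∀ i, p (e i) = p i)
    (F : (ι → G) → α) : H (pl p) (fun x => F (fun i => x (e i))) = H (pl p) F := by
  have h1 : pl p = fun x : ι → G => pl p ((Equiv.arrowCongr e.symm (Equiv.refl G)) x) := by
    funext x
    unfold pl
    rw [← Equiv.prod_comp e]
    refine Finset.prod_congr rfl fun i _ => ?_
    rw [he i]
    rfl
  have h2 := H_equiv (Equiv.arrowCongr e.symm (Equiv.refl G)) (pl p) F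
  rw [← h1] at h2
  exact h2

end Pool.Agent.TH404.Tor
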