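import Pool.Agent.H24.Lib.R_seed8.TH404.Tor.NI
import Pool.Agent.H24.Lib.R_seed8.TH404.Tor.BsgE
import Pool.Agent.H24.Lib.R_seed8.TH404.Tor.Growth
set_option autoImplicit false

/-! Linear forms in independent variables. -/

open scoped Classical

namespace Pool.Agent.TH404.Tor

open H137.PFR hiding dist

variable {Ω Ω' α β γ δ : Type*} [Fintype Ω] [Fintype Ω'] [Fintype α] [Fintype β] [Fintype γ]
  [Fintype δ]

/-- conditional mutual information -/
noncomputable def cmi (w : Ω → ℝ) (X : Ω → α) (Y : Ω → β) (W : Ω → γ) : ℝ :=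
  H w (fun ω => (X ω, W ω)) + H w (fun ω => (Y ω, W ω)) - H w (fun ω => (X ω, Y ω, W ω)) - H w W

/-- data processing in the second variable -/
theorem cmi_comp_le {w : Ω → ℝ} (hw : Law w) (X : Ω → α) (Y : Ω → β) (W : Ω → γ) (f : β → δ) :
    cmi w X (fun ω => f (Y ω)) W ≤ cmi w X Y W := by
  unfold cmi
  have h1 := cond_mono hw X (fun ω => (Y ω, W ω)) (fun q : β × γ => (f q.1, q.2))
  simp only at h1
  linarith

/-- chain rule bound -/
theorem cmi_chain {w : Ω → ℝ} (hw : Law w) (Y : Ω → α) (T : Ω → β) (B : Ω → δ) (W : Ω → γ) :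
    cmi w Y (fun ω => (T ω, B ω)) W ≤ cmi w Y T W + cmi w (fun ω => (Y ω, T ω)) B W := by
  unfold cmi
  have h1 := H_submod hw T B W
  have e1 : H w (fun ω => ((T ω, B ω), W ω)) = H w (fun ω => (T ω, B ω, W ω)) :=
    H_eq hw (fun q => (q.1.1, q.1.2, q.2)) (fun q => ((q.1, q.2.1), q.2.2)) (fun _ => rfl)
      (fun _ => rfl)
  have e2 : H w (fun ω => (Y ω, (T ω, B ω), W ω)) = H w (fun ω => ((Y ω, T ω), B ω, W ω)) :=
    H_eq hw (fun q => ((q.1, q.2.1.1), q.2.1.2, q.2.2)) (fun q => (q.1.1, (q.1.2, q.2.1), q.2.2))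
      (fun _ => rfl) (fun _ => rfl)
  have e3 : H w (fun ω => ((Y ω, T ω), W ω)) = H w (fun ω => (Y ω, T ω, W ω)) :=
    H_eq hw (fun q => (q.1.1, q.1.2, q.2)) (fun q => ((q.1, q.2.1), q.2.2)) (fun _ => rfl)
      (fun _ => rfl)
  rw [e1, e2, e3]
  linarith

variable {V : Type*} [AddCommGroup V] [Fintype V]

/-- adding an independent variable increases the entropy -/
theorem H_le_add {w : Ω → ℝ} (hw : Law w) {X Y : Ω → V} (h : Ind w X Y) :
    H w X ≤ H w (fun ω => X ω + Y ω) := by
  have h1 := ent_le_conv_left (law_push hw X) (law_push hw Y)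
  rw [← h.push_add] at h1
  exact h1

variable {R : Type*} [Ring R] [Module R V]

variable {ι : Type*} [Fintype ι] [DecidableEq ι]

/-- linear form -/
def L (c : ι → R) (x : ι → V) : V := ∑ i, c i • x i

theorem L_add (c c' : ι → R) (x : ι → V) : L (c + c') x = L c x + L c' x := by
  unfold L
  rw [← Finset.sum_add_distrib]
  exact Finset.sum_congr rfl fun i _ => by rw [Pi.add_apply, add_smul]

theorem L_perm (e : ι ≃ ι) (c : ι → R) (x : ι → V) :
    L c (fun i => x (e i)) = L (fun i => c (e.symm i)) x := by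
  unfold L
  rw [← Equiv.sum_comp e (fun i => c (e.symm i) • x i)]
  simp

theorem L_eq_Zf (c : ι → R) :
    (L c : (ι → V) → V) = Zf (fun i => DistribSMul.toAddMonoidHom V (c i)) Finset.univ := rfl

variable {η : ℝ} {μ₀ p₁ p₂ : V → ℝ} {p : ι → V → ℝ}

/-- lower bound for the entropy of a pair of forms -/
theorem H_pair_ge (hp : ∀ i, Law (p i)) (c c' : ι → R) (j1 j2 : ι) (hne : j1 ≠ j2)
    (h11 : c j1 = 1) (h12 : c' j1 = 1) (h21 : c j2 = 0) (h22 : c' j2 = 1) :
    ent (p j1) + ent (p j2) ≤ H (pl p) (fun x : ι → V => (L c x, L c' x)) := by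
  have hw : Law (pl p) := law_pl hp
  set rest : (ι → V) → V × V := fun x => (∑ i ∈ (Finset.univ.erase j1).erase j2, c i • x i,
    ∑ i ∈ (Finset.univ.erase j1).erase j2, c' i • x i) with hrest
  have hI : Ind (pl p) (fun x : ι → V => ((x j1, x j1 + x j2) : V × V)) rest := by
    refine ind_pl hp {i | i = j1 ∨ i = j2} _ _ ?_ ?_
    · intro x y hxy
      have k1 := hxy j1 (Or.inl rfl)
      have k2 := hxy j2 (Or.inr rfl)
      simp only [Prod.mk.injEq, k1, k2, and_self]
    · intro x y hxy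
      have k1 : ∀ i ∈ (Finset.univ.erase j1).erase j2, x i = y i := by
        intro i hi
        refine hxy i ?_
        intro hc
        rcases hc with hc | hc
        · exact (Finset.mem_erase.1 (Finset.mem_erase.1 hi).2).1 hc
        · exact (Finset.mem_erase.1 hi).1 hc
      simp only [hrest, Prod.mk.injEq]
      exact ⟨Finset.sum_congr rfl fun i hi => by rw [k1 i hi],
        Finset.sum_congr rfl fun i hi => by rw [k1 i hi]⟩
  have h1 := H_le_add hw hI
  have hmem : j2 ∈ Finset.univ.erase j1 := Finset.mem_erase.2 ⟨hne.symm, Finset.mem_univ _⟩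
  have e1 : (fun x : ι → V => ((x j1, x j1 + x j2) : V × V) + rest x) =
      fun x => (L c x, L c' x) := by
    funext x
    unfold L
    rw [← Finset.add_sum_erase Finset.univ _ (Finset.mem_univ j1),
      ← Finset.add_sum_erase Finset.univ (fun i => c' i • x i) (Finset.mem_univ j1),
      ← Finset.add_sum_erase _ (fun i => c i • x i) hmem,
      ← Finset.add_sum_erase _ (fun i => c' i • x i) hmem]
    simp only [hrest, Prod.mk_add_mk, h11, h12, h21, h22, one_smul, zero_smul, zero_add,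
      Prod.mk.injEq, true_and]
    abel
  have e2 : H (pl p) (fun x : ι → V => ((x j1, x j1 + x j2) : V × V)) =
      ent (p j1) + ent (p j2) := by
    have a1 : H (pl p) (fun x : ι → V => ((x j1, x j1 + x j2) : V × V)) =
        H (pl p) (fun x => (x j1, x j2)) :=
      H_eq hw (fun q => (q.1, q.2 - q.1)) (fun q => (q.1, q.1 + q.2)) (fun x => by simp)
        (fun x => rfl)
    have a2 : Ind (pl p) (fun x : ι → V => x j1) (fun x => x j2) := by
      refine ind_pl hp {j1} _ _ ?_ ?_
      · intro x y hxy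
        exact hxy j1 rfl
      · intro x y hxy
        exact hxy j2 (fun hc => hne hc.symm)
    rw [a1, a2.H hw]
    unfold H
    rw [push_coord hp, push_coord hp]
  rw [e1, e2] at h1
  exact h1

/-- the combination of minimality and Balog-Szemeredi-Gowers for linear forms -/
theorem bsg_lin (h : Mn η μ₀ p₁ p₂) (hp : ∀ i, Law (p i)) (cX cY cW : ι → R) (j1 j2 : ι)
    (h1 : p j1 = p₁) (h2 : p j2 = p₂) (h11 : cX j1 = 1) (h21 : cX j2 = 1) :
    D2 p₁ p₂ ≤ 3 * cmi (pl p) (L cX) (L cY) (L cW : (ι → V) → V)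
      + 2 * H (pl p) (fun x : ι → V => (L (cX + cY) x, L cW x))
      - H (pl p) (fun x : ι → V => (L cX x, L cW x)) - H (pl p) (fun x : ι → V => (L cY x, L cW x))
      + η * (2 * H (pl p) (L cX : (ι → V) → V) - (ent p₁ + ent p₂) / 2
        - (H (pl p) (fun x : ι → V => (L cX x, L cY x, L cW x))
          - H (pl p) (fun x : ι → V => (L (cX + cY) x, L cW x)))) := by
  have hw : Law (pl p) := law_pl hp
  have hmain := bsg_min h.l0 h.pos h.min hw (L cX) (L cY) (L cW)
  have hadd : (fun x : ι → V => (L cX x + L cY x, L cW x)) =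
      fun x => (L (cX + cY) x, L cW x) := by
    funext x
    rw [L_add]
  rw [hadd] at hmain
  have e1 : E0 μ₀ (pl p) (L cX) (L cW : (ι → V) → V) - H (pl p) (L cW : (ι → V) → V) ≤
      ent (conv μ₀ (push (pl p) (L cX))) := by
    have a1 := E0_cond_le h.l0 hw (L cX : (ι → V) → V) (L cW)
    rwa [E0_push h.l0 hw] at a1
  have e2 : ent (conv μ₀ (push (pl p) (L cX))) ≤
      ent (conv μ₀ p₁) + H (pl p) (L cX : (ι → V) → V) - ent p₁ := by
    have := E0_Zf (φ := fun i => DistribSMul.toAddMonoidHom V (cX i)) h.l0 hp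
      (Finset.mem_univ j1) (by ext v; simp [h11])
    rw [h1] at this
    exact this
  have e3 : ent (conv μ₀ (push (pl p) (L cX))) ≤
      ent (conv μ₀ p₂) + H (pl p) (L cX : (ι → V) → V) - ent p₂ := by
    have := E0_Zf (φ := fun i => DistribSMul.toAddMonoidHom V (cX i)) h.l0 hp
      (Finset.mem_univ j2) (by ext v; simp [h21])
    rw [h2] at this
    exact this
  have e4 := mul_le_mul_of_nonneg_left (e1.trans e2) h.pos
  have e5 := mul_le_mul_of_nonneg_left (e1.trans e3) h.pos
  unfold tauE at hmain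
  have d1 : D2 μ₀ p₁ = ent (conv μ₀ p₁) - ent μ₀ / 2 - ent p₁ / 2 := rfl
  have d2 : D2 μ₀ p₂ = ent (conv μ₀ p₂) - ent μ₀ / 2 - ent p₂ / 2 := rfl
  rw [d1, d2] at hmain
  unfold cmi
  nlinarith [hmain, e4, e5]

end Pool.Agent.TH404.Tor
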