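import Pool.Agent.H24.Lib.R_seed8.H137R2.PFR.Hundred
import Pool.Agent.H24.Lib.R_seed8.TH404.Tor.Fib
set_option autoImplicit false

/-! The commutative monoid of laws under convolution; noise estimates. -/

open scoped Classical

namespace Pool.Agent.TH404.Tor

open H137.PFR hiding dist

variable {Ω Ω' α β γ δ : Type*} [Fintype Ω] [Fintype Ω'] [Fintype α] [Fintype β] [Fintype γ]
  [Fintype δ]

variable {V : Type*} [AddCommGroup V] [Fintype V]

/-- laws on `V` -/
def PL (V : Type*) [Fintype V] : Type _ := {p : V → ℝ // Law p}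

theorem law_single : Law (Pi.single (0 : V) (1 : ℝ)) := by
  constructor
  · intro x
    by_cases h : x = 0
    · subst h; simp
    · simp [h]
  · simp

noncomputable instance : Mul (PL V) := ⟨fun a b => ⟨conv a.1 b.1, law_conv a.2 b.2⟩⟩

noncomputable instance : One (PL V) := ⟨⟨Pi.single 0 1, law_single⟩⟩

theorem PL.mul_val (a b : PL V) : (a * b).1 = conv a.1 b.1 := rfl

theorem PL.one_val : (1 : PL V).1 = Pi.single 0 1 := rfl

theorem conv_assoc (a b c : V → ℝ) : conv (conv a b) c = conv a (conv b c) := by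
  funext v
  rw [Hundred.conv_apply', Hundred.conv_apply']
  simp only [Hundred.conv_apply']
  simp only [Finset.sum_mul, Finset.mul_sum]
  rw [Finset.sum_comm]
  refine Finset.sum_congr rfl fun y _ => ?_
  refine Fintype.sum_equiv (Equiv.subRight y) _ _ fun x => ?_
  simp only [Equiv.subRight_apply]
  rw [mul_assoc]
  congr 3
  abel

theorem conv_one (a : V → ℝ) : conv a (Pi.single 0 1) = a := by
  funext v
  rw [Hundred.conv_apply, Finset.sum_eq_single 0]
  · simp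
  · intro x _ hx
    simp [hx]
  · intro h
    exact absurd (Finset.mem_univ _) h

noncomputable instance : CommMonoid (PL V) where
  mul_assoc a b c := Subtype.ext (conv_assoc a.1 b.1 c.1)
  mul_comm a b := Subtype.ext (conv_comm a.1 b.1)
  one_mul a := Subtype.ext (by
    change conv (Pi.single 0 1) a.1 = a.1
    rw [conv_comm, conv_one])
  mul_one a := Subtype.ext (conv_one a.1)

/-- entropy -/
noncomputable def PL.e (a : PL V) : ℝ := ent a.1

/-- the law of a random variable -/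
noncomputable def lw {w : Ω → ℝ} (hw : Law w) (X : Ω → V) : PL V := ⟨push w X, law_push hw X⟩

/-- image of a law -/
noncomputable def PL.map {W : Type*} [AddCommGroup W] [Fintype W] (φ : V →+ W) (a : PL V) : PL W :=
  ⟨push a.1 φ, law_push a.2 φ⟩

theorem push_conv_hom {W : Type*} [AddCommGroup W] [Fintype W] (μ ν : V → ℝ) (φ : V →+ W) :
    push (conv μ ν) φ = conv (push μ φ) (push ν φ) := by
  have h1 : prod (push μ φ) (push ν φ) =
      push (prod μ ν) (fun p : V × V => (φ p.1, φ p.2)) := by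
    funext p
    obtain ⟨a, b⟩ := p
    exact (push_prod μ ν _ _ a b).symm
  unfold conv
  rw [h1, push_push, push_push]
  simp only [map_add]

theorem PL.map_mul {W : Type*} [AddCommGroup W] [Fintype W] (φ : V →+ W) (a b : PL V) :
    PL.map φ (a * b) = PL.map φ a * PL.map φ b := Subtype.ext (push_conv_hom a.1 b.1 φ)

theorem push_const {w : Ω → ℝ} (hw : Law w) : push w (fun _ => (0 : V)) = Pi.single 0 1 := by
  funext a
  unfold push
  by_cases h : a = 0
  · subst h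
    simp [hw.2]
  · simp [h, Ne.symm h]

theorem PL.map_one {W : Type*} [AddCommGroup W] [Fintype W] (φ : V →+ W) :
    PL.map φ (1 : PL V) = 1 := by
  apply Subtype.ext
  change push (Pi.single 0 1) φ = Pi.single 0 1
  have h1 := push_const (V := V) (w := (Pi.single 0 1 : V → ℝ)) law_single
  have h2 : push (Pi.single (0 : V) (1 : ℝ)) φ =
      push (push (Pi.single (0 : V) (1 : ℝ)) (fun _ => (0 : V))) φ := by rw [h1]
  rw [h2, push_push]
  simp only [_root_.map_zero]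
  exact push_const law_single

theorem PL.e_le_mul (a b : PL V) : a.e ≤ (a * b).e := ent_le_conv_left a.2 b.2

theorem PL.e_le_mul' (a b : PL V) : b.e ≤ (a * b).e := by
  rw [mul_comm]; exact PL.e_le_mul b a

theorem lw_zero {w : Ω → ℝ} (hw : Law w) : lw hw (fun _ => (0 : V)) = 1 :=
  Subtype.ext (push_const hw)

theorem ind_prod {w : Ω → ℝ} {w' : Ω' → ℝ} (hw : Law w) (hw' : Law w') (X : Ω → α) (Y : Ω' → β) :
    Ind (prod w w') (fun q => X q.1) (fun q => Y q.2) := by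
  intro a b
  rw [push_prod, push_prod_fst w hw' X, push_prod_snd hw w' Y]

theorem H_pair_id {μ : α → ℝ} {ν : β → ℝ} (hμ : Law μ) (hν : Law ν) :
    H (prod μ ν) (fun p => (p.1, p.2)) = ent μ + ent ν := by
  have h := H_prod hμ hν (fun x : α => x) (fun x : β => x)
  have h1 : H μ (fun x : α => x) = ent μ := H_id μ
  have h2 : H ν (fun x : β => x) = ent ν := H_id ν
  rw [h1, h2] at h
  exact h

/-- independent noise, dependent variables -/
theorem cost_add (ν₁ ν₂ : PL V) {w : Ω → ℝ} (hw : Law w) (Y₁ Y₂ : Ω → V) :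
    (ν₁ * ν₂ * lw hw (fun ω => Y₁ ω + Y₂ ω)).e - (ν₁ * ν₂).e ≤
      ((ν₁ * lw hw Y₁).e - ν₁.e) + ((ν₂ * lw hw Y₂).e - ν₂.e) := by
  have hn : Law (prod ν₁.1 ν₂.1) := law_prod ν₁.2 ν₂.2
  set W : (V × V) × Ω → ℝ := prod (prod ν₁.1 ν₂.1) w with hW
  have hWl : Law W := law_prod hn hw
  -- independence facts
  have i0 : ∀ (f : V × V → V) (g : Ω → V), Ind W (fun q => f q.1) (fun q => g q.2) :=
    fun f g => ind_prod hn hw f g
  have pf : ∀ (f : V × V → V), push W (fun q => f q.1) = push (prod ν₁.1 ν₂.1) f :=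
    fun f => push_prod_fst _ hw f
  have pg : ∀ (g : Ω → V), push W (fun q => g q.2) = push w g :=
    fun g => push_prod_snd hn w g
  have n1 : push (prod ν₁.1 ν₂.1) (fun p => p.1) = ν₁.1 := by
    rw [push_prod_fst ν₁.1 ν₂.2 (fun x => x), push_id']
  have n2 : push (prod ν₁.1 ν₂.1) (fun p => p.2) = ν₂.1 := by
    rw [push_prod_snd ν₁.2 ν₂.1 (fun x => x), push_id']
  -- submodularity
  have s1 := H_submod hWl (fun q : (V × V) × Ω => (q.1.1 + Y₁ q.2, q.1.2 + Y₂ q.2))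
    (fun q => (Y₁ q.2, Y₂ q.2)) (fun q => q.1.1 + q.1.2 + (Y₁ q.2 + Y₂ q.2))
  have s2 : H W (fun q : (V × V) × Ω => ((q.1.1 + Y₁ q.2, q.1.2 + Y₂ q.2), (Y₁ q.2, Y₂ q.2),
      q.1.1 + q.1.2 + (Y₁ q.2 + Y₂ q.2))) = ν₁.e + ν₂.e + H w (fun ω => (Y₁ ω, Y₂ ω)) := by
    have a1 : H W (fun q : (V × V) × Ω => ((q.1.1 + Y₁ q.2, q.1.2 + Y₂ q.2), (Y₁ q.2, Y₂ q.2),
      q.1.1 + q.1.2 + (Y₁ q.2 + Y₂ q.2))) = H W (fun q => ((q.1.1, q.1.2), (Y₁ q.2, Y₂ q.2))) :=
      H_eq hWl (fun r => ((r.1.1 - r.2.1.1, r.1.2 - r.2.1.2), r.2.1))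
        (fun r => ((r.1.1 + r.2.1, r.1.2 + r.2.2), r.2, r.1.1 + r.1.2 + (r.2.1 + r.2.2)))
        (fun q => by simp) (fun q => by simp)
    have a2 := H_prod hn hw (fun p : V × V => (p.1, p.2)) (fun ω => (Y₁ ω, Y₂ ω))
    have a4 : H (prod ν₁.1 ν₂.1) (fun p : V × V => (p.1, p.2)) = ν₁.e + ν₂.e :=
      H_pair_id ν₁.2 ν₂.2
    rw [a1]
    rw [a4] at a2
    exact a2
  have s3 : H W (fun q : (V × V) × Ω => q.1.1 + q.1.2 + (Y₁ q.2 + Y₂ q.2)) =
      (ν₁ * ν₂ * lw hw (fun ω => Y₁ ω + Y₂ ω)).e := by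
    have a1 := (i0 (fun p => p.1 + p.2) (fun ω => Y₁ ω + Y₂ ω)).push_add
    rw [pf (fun p => p.1 + p.2), pg (fun ω => Y₁ ω + Y₂ ω)] at a1
    unfold H
    rw [a1]
    rfl
  have s4 : H W (fun q : (V × V) × Ω => ((q.1.1 + Y₁ q.2, q.1.2 + Y₂ q.2),
      q.1.1 + q.1.2 + (Y₁ q.2 + Y₂ q.2))) ≤ (ν₁ * lw hw Y₁).e + (ν₂ * lw hw Y₂).e := by
    have a1 : H W (fun q : (V × V) × Ω => ((q.1.1 + Y₁ q.2, q.1.2 + Y₂ q.2),
      q.1.1 + q.1.2 + (Y₁ q.2 + Y₂ q.2))) =
      H W (fun q => (q.1.1 + Y₁ q.2, q.1.2 + Y₂ q.2)) :=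
      H_eq hWl (fun r => r.1) (fun r => (r, r.1 + r.2))
        (fun q => by simp) (fun q => by
          simp only [Prod.mk.injEq, true_and]
          abel)
    have a2 := H_subadd hWl (fun q : (V × V) × Ω => q.1.1 + Y₁ q.2) (fun q => q.1.2 + Y₂ q.2)
    have a3 : H W (fun q : (V × V) × Ω => q.1.1 + Y₁ q.2) = (ν₁ * lw hw Y₁).e := by
      have b1 := (i0 (fun p => p.1) Y₁).push_add
      rw [pf (fun p => p.1), pg Y₁, n1] at b1
      unfold H
      rw [b1]
      rfl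
    have a4 : H W (fun q : (V × V) × Ω => q.1.2 + Y₂ q.2) = (ν₂ * lw hw Y₂).e := by
      have b1 := (i0 (fun p => p.2) Y₂).push_add
      rw [pf (fun p => p.2), pg Y₂, n2] at b1
      unfold H
      rw [b1]
      rfl
    rw [a1]
    linarith
  have s5 : H W (fun q : (V × V) × Ω => ((Y₁ q.2, Y₂ q.2),
      q.1.1 + q.1.2 + (Y₁ q.2 + Y₂ q.2))) ≤ H w (fun ω => (Y₁ ω, Y₂ ω)) + (ν₁ * ν₂).e := by
    have a1 : H W (fun q : (V × V) × Ω => ((Y₁ q.2, Y₂ q.2),
      q.1.1 + q.1.2 + (Y₁ q.2 + Y₂ q.2))) =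
      H W (fun q => ((Y₁ q.2, Y₂ q.2), q.1.1 + q.1.2)) :=
      H_eq hWl (fun r => (r.1, r.2 - (r.1.1 + r.1.2))) (fun r => (r.1, r.2 + (r.1.1 + r.1.2)))
        (fun q => by simp) (fun q => by simp)
    have a2 := H_subadd hWl (fun q : (V × V) × Ω => (Y₁ q.2, Y₂ q.2)) (fun q => q.1.1 + q.1.2)
    have a3 : H W (fun q : (V × V) × Ω => (Y₁ q.2, Y₂ q.2)) = H w (fun ω => (Y₁ ω, Y₂ ω)) :=
      H_prod_snd hn hw (fun ω => (Y₁ ω, Y₂ ω))
    have a4 : H W (fun q : (V × V) × Ω => q.1.1 + q.1.2) = (ν₁ * ν₂).e := by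
      unfold H
      rw [pf (fun p => p.1 + p.2)]
      rfl
    rw [a1]
    linarith
  rw [s2, s3] at s1
  linarith

/-- noise is more efficient when there is more of it -/
theorem cost_mono (ν₁ ν₂ y : PL V) : (ν₁ * ν₂ * y).e - (ν₁ * ν₂).e ≤ (ν₁ * y).e - ν₁.e := by
  have h1 := cost_add ν₁ ν₂ y.2 (fun x => x) (fun _ => 0)
  have h2 : lw y.2 (fun x : V => x + 0) = y := by
    apply Subtype.ext
    change push y.1 (fun x : V => x + 0) = y.1
    simp only [add_zero]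
    exact push_id' y.1
  have h3 : lw y.2 (fun x : V => x) = y := Subtype.ext (push_id' y.1)
  rw [h2, h3, lw_zero, mul_one, sub_self, add_zero] at h1
  exact h1

/-- homomorphisms decrease costs -/
theorem cost_hom {W : Type*} [AddCommGroup W] [Fintype W] (φ : V →+ W) (ν y : PL V) :
    (PL.map φ ν * PL.map φ y).e - (PL.map φ ν).e ≤ (ν * y).e - ν.e := by
  have hl := law_prod ν.2 y.2
  have s1 := H_submod hl (fun q : V × V => q.1 + q.2) (fun q => q.2) (fun q => φ (q.1 + q.2))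
  have s2 : H (prod ν.1 y.1) (fun q : V × V => (q.1 + q.2, q.2, φ (q.1 + q.2))) =
      ν.e + y.e := by
    have a1 : H (prod ν.1 y.1) (fun q : V × V => (q.1 + q.2, q.2, φ (q.1 + q.2))) =
        H (prod ν.1 y.1) (fun q => (q.1, q.2)) :=
      H_eq hl (fun r => (r.1 - r.2.1, r.2.1)) (fun r => (r.1 + r.2, r.2, φ (r.1 + r.2)))
        (fun q => by simp) (fun q => rfl)
    rw [a1]
    exact H_pair_id ν.2 y.2
  have s3 : H (prod ν.1 y.1) (fun q : V × V => (q.1 + q.2, φ (q.1 + q.2))) = (ν * y).e :=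
    H_eq hl (fun r => r.1) (fun r => (r, φ r)) (fun q => rfl) (fun q => rfl)
  have s4 : H (prod ν.1 y.1) (fun q : V × V => (q.2, φ (q.1 + q.2))) ≤
      y.e + (PL.map φ ν).e := by
    have a1 : H (prod ν.1 y.1) (fun q : V × V => (q.2, φ (q.1 + q.2))) =
        H (prod ν.1 y.1) (fun q => (q.2, φ q.1)) :=
      H_eq hl (fun r => (r.1, r.2 - φ r.1)) (fun r => (r.1, r.2 + φ r.1))
        (fun q => by simp) (fun q => by simp)
    have a2 := H_subadd hl (fun q : V × V => q.2) (fun q => φ q.1)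
    have a3 : H (prod ν.1 y.1) (fun q : V × V => q.2) = y.e := by
      rw [H_prod_snd ν.2 y.2 (fun x => x), H_id]; rfl
    have a4 : H (prod ν.1 y.1) (fun q : V × V => φ q.1) = (PL.map φ ν).e := by
      rw [H_prod_fst ν.2 y.2 (fun x => φ x)]; rfl
    rw [a1]
    linarith
  have s5 : H (prod ν.1 y.1) (fun q : V × V => φ (q.1 + q.2)) =
      (PL.map φ ν * PL.map φ y).e := by
    have a1 := PL.map_mul φ ν y
    rw [← a1]
    change ent _ = ent (push (push (prod ν.1 y.1) (fun p => p.1 + p.2)) φ)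
    rw [push_push]
  rw [s2, s3, s5] at s1
  linarith

end Pool.Agent.TH404.Tor
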